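import Mathlib

/-!
# Pointwise calculus for the Bellman function `F² / (2V - 1/(V W²))`
-/

set_option autoImplicit false

namespace Pool.Agent.H24.MP842

open Real

/-- The denominator `2V - 1/(V W²)` of the Bellman function. -/
noncomputable def q (V W : ℝ) : ℝ := 2 * V - 1 / (V * W ^ 2)

/-- first derivative of `q` along a curve -/
noncomputable def q1 (V V1 W W1 : ℝ) : ℝ :=
  2 * V1 + V1 / (V ^ 2 * W ^ 2) + 2 * W1 / (V * W ^ 3)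

/-- minus the Hessian part of the second derivative of `q` along a curve -/
noncomputable def qh (V V1 W W1 : ℝ) : ℝ :=
  2 * V1 ^ 2 / (V ^ 3 * W ^ 2) + 4 * V1 * W1 / (V ^ 2 * W ^ 3) + 6 * W1 ^ 2 / (V * W ^ 4)

/-- second derivative of `q` along a curve -/
noncomputable def q2 (V V1 V2 W W1 W2 : ℝ) : ℝ :=
  (2 + 1 / (V ^ 2 * W ^ 2)) * V2 + 2 / (V * W ^ 3) * W2 - qh V V1 W W1

/-- `F² / Q` -/
noncomputable def ph (F Q : ℝ) : ℝ := F ^ 2 / Q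

/-- first derivative of `F²/Q` along a curve -/
noncomputable def ph1 (F F1 Q Q1 : ℝ) : ℝ := 2 * F * F1 / Q - F ^ 2 * Q1 / Q ^ 2

/-- second derivative of `F²/Q` along a curve -/
noncomputable def ph2 (F F1 F2 Q Q1 Q2 : ℝ) : ℝ :=
  2 * F1 ^ 2 / Q + 2 * F * F2 / Q - 4 * F * F1 * Q1 / Q ^ 2 + 2 * F ^ 2 * Q1 ^ 2 / Q ^ 3
    - F ^ 2 * Q2 / Q ^ 2

section deriv

variable {V W V1 W1 F F1 Q Q1 : ℝ → ℝ} {V2 W2 F2 Q2 t : ℝ}

lemma hasDerivAt_q (hV : HasDerivAt V (V1 t) t) (hW : HasDerivAt W (W1 t) t) (hV0 : V t ≠ 0)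
    (hW0 : W t ≠ 0) :
    HasDerivAt (fun t => q (V t) (W t)) (q1 (V t) (V1 t) (W t) (W1 t)) t := by
  have h1 := hV.mul (hW.pow 2)
  have h2 := (hasDerivAt_const t (1 : ℝ)).div h1 (by simp; exact ⟨hV0, hW0⟩)
  have h3 := (hV.const_mul 2).sub h2
  refine h3.congr_deriv ?_
  simp only [q1, Pi.mul_apply, Pi.pow_apply]
  field_simp
  ring

lemma hasDerivAt_q1 (hV : HasDerivAt V (V1 t) t) (hW : HasDerivAt W (W1 t) t)
    (hV1 : HasDerivAt V1 V2 t) (hW1 : HasDerivAt W1 W2 t) (hV0 : V t ≠ 0) (hW0 : W t ≠ 0) :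
    HasDerivAt (fun t => q1 (V t) (V1 t) (W t) (W1 t))
      (q2 (V t) (V1 t) V2 (W t) (W1 t) W2) t := by
  have h1 := (hV.pow 2).mul (hW.pow 2)
  have h2 := hV1.div h1 (by simp; exact ⟨hV0, hW0⟩)
  have h3 := hV.mul (hW.pow 3)
  have h4 := (hW1.const_mul 2).div h3 (by simp; exact ⟨hV0, hW0⟩)
  have h5 := ((hV1.const_mul 2).add h2).add h4
  refine h5.congr_deriv ?_
  simp only [q2, qh, Pi.mul_apply, Pi.pow_apply]
  field_simp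
  ring

lemma hasDerivAt_ph (hF : HasDerivAt F (F1 t) t) (hQ : HasDerivAt Q (Q1 t) t) (hQ0 : Q t ≠ 0) :
    HasDerivAt (fun t => ph (F t) (Q t)) (ph1 (F t) (F1 t) (Q t) (Q1 t)) t := by
  have h1 := (hF.pow 2).div hQ hQ0
  refine h1.congr_deriv ?_
  simp only [ph1, Pi.pow_apply]
  field_simp
  ring

lemma hasDerivAt_ph1 (hF : HasDerivAt F (F1 t) t) (hQ : HasDerivAt Q (Q1 t) t)
    (hF1 : HasDerivAt F1 F2 t) (hQ1 : HasDerivAt Q1 Q2 t) (hQ0 : Q t ≠ 0) :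
    HasDerivAt (fun t => ph1 (F t) (F1 t) (Q t) (Q1 t))
      (ph2 (F t) (F1 t) F2 (Q t) (Q1 t) Q2) t := by
  have h1 := ((hF.const_mul 2).mul hF1).div hQ hQ0
  have h2 := ((hF.pow 2).mul hQ1).div (hQ.pow 2) (by simpa using hQ0)
  have h3 := h1.sub h2
  refine h3.congr_deriv ?_
  simp only [ph2, Pi.mul_apply, Pi.pow_apply]
  field_simp
  ring

end deriv

section bounds

variable {F F1 F2 V V1 V2 W W1 W2 y A : ℝ}

lemma inv_VW (hV : 0 < V) (hW : 0 < W) (h1 : 1 ≤ V * W) : 1 / (V * W ^ 2) ≤ V := by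
  rw [div_le_iff₀ (by positivity)]
  nlinarith

lemma q_le (hV : 0 < V) (hW : 0 < W) : q V W ≤ 2 * V := by
  unfold q
  have : 0 < 1 / (V * W ^ 2) := by positivity
  linarith

lemma le_q (hV : 0 < V) (hW : 0 < W) (h1 : 1 ≤ V * W) : V ≤ q V W := by
  unfold q
  have := inv_VW hV hW h1
  linarith

lemma q_pos (hV : 0 < V) (hW : 0 < W) (h1 : 1 ≤ V * W) : 0 < q V W :=
  lt_of_lt_of_le hV (le_q hV hW h1)

/-- `a = V1/V`, `b = W1/W`, `g = 1/(V W²)` normal form of `q1` -/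
lemma q1_eq (hV : 0 < V) (hW : 0 < W) :
    q1 V V1 W W1 = 2 * V * (V1 / V) + 1 / (V * W ^ 2) * (V1 / V + 2 * (W1 / W)) := by
  unfold q1
  field_simp
  ring

lemma qh_eq (hV : 0 < V) (hW : 0 < W) :
    qh V V1 W W1 = 1 / (V * W ^ 2) *
      (2 * (V1 / V) ^ 2 + 4 * (V1 / V) * (W1 / W) + 6 * (W1 / W) ^ 2) := by
  unfold qh
  field_simp

lemma abs_div_le (hV : 0 < V) (hy : 0 < y) (h : |V1| ≤ V / y) : |V1 / V| ≤ 1 / y := by
  rw [abs_div, abs_of_pos hV, div_le_iff₀ hV]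
  calc |V1| ≤ V / y := h
    _ = 1 / y * V := by ring

lemma abs_div_le2 (hV : 0 < V) (hy : 0 < y) (h : |V2| ≤ 6 * V / y ^ 2) : |V2 / V| ≤ 6 / y ^ 2 := by
  rw [abs_div, abs_of_pos hV, div_le_iff₀ hV]
  calc |V2| ≤ 6 * V / y ^ 2 := h
    _ = 6 / y ^ 2 * V := by ring

lemma abs_q1_le (hV : 0 < V) (hW : 0 < W) (h1 : 1 ≤ V * W) (hy : 0 < y)
    (hV1 : |V1| ≤ V / y) (hW1 : |W1| ≤ W / y) : |q1 V V1 W W1| ≤ 5 * q V W / y := by
  rw [q1_eq hV hW]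
  have ha := abs_div_le hV hy hV1
  have hb := abs_div_le hW hy hW1
  have hg := inv_VW hV hW h1
  have hg0 : 0 < 1 / (V * W ^ 2) := by positivity
  have hq := le_q hV hW h1
  set a := V1 / V
  set b := W1 / W
  set g := 1 / (V * W ^ 2)
  have h3 : |a + 2 * b| ≤ 3 * (1 / y) := by
    calc |a + 2 * b| ≤ |a| + |2 * b| := abs_add_le _ _
      _ = |a| + 2 * |b| := by rw [abs_mul, abs_two]
      _ ≤ 3 * (1 / y) := by linarith
  calc |2 * V * a + g * (a + 2 * b)| ≤ |2 * V * a| + |g * (a + 2 * b)| := abs_add_le _ _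
    _ = 2 * V * |a| + g * |a + 2 * b| := by
        rw [abs_mul, abs_of_pos (by positivity : 0 < 2 * V), abs_mul, abs_of_pos hg0]
    _ ≤ 2 * V * (1 / y) + V * (3 * (1 / y)) := by gcongr
    _ = 5 * V / y := by ring
    _ ≤ 5 * q V W / y := by gcongr

lemma abs_q2_le (hV : 0 < V) (hW : 0 < W) (h1 : 1 ≤ V * W) (hy : 0 < y)
    (hV1 : |V1| ≤ V / y) (hW1 : |W1| ≤ W / y) (hV2 : |V2| ≤ 6 * V / y ^ 2)
    (hW2 : |W2| ≤ 6 * W / y ^ 2) : |q2 V V1 V2 W W1 W2| ≤ 42 * q V W / y ^ 2 := by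
  have e : q2 V V1 V2 W W1 W2 = 2 * V * (V2 / V) + 1 / (V * W ^ 2) * (V2 / V + 2 * (W2 / W))
      - 1 / (V * W ^ 2) * (2 * (V1 / V) ^ 2 + 4 * (V1 / V) * (W1 / W) + 6 * (W1 / W) ^ 2) := by
    unfold q2
    rw [qh_eq hV hW]
    field_simp
    ring
  rw [e]
  have ha := abs_div_le hV hy hV1
  have hb := abs_div_le hW hy hW1
  have ha2 := abs_div_le2 hV hy hV2
  have hb2 := abs_div_le2 hW hy hW2
  have hg := inv_VW hV hW h1
  have hg0 : 0 < 1 / (V * W ^ 2) := by positivity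
  have hq := le_q hV hW h1
  set a := V1 / V
  set b := W1 / W
  set a2 := V2 / V
  set b2 := W2 / W
  set g := 1 / (V * W ^ 2)
  have h3 : |a2 + 2 * b2| ≤ 3 * (6 / y ^ 2) := by
    calc |a2 + 2 * b2| ≤ |a2| + |2 * b2| := abs_add_le _ _
      _ = |a2| + 2 * |b2| := by rw [abs_mul, abs_two]
      _ ≤ 3 * (6 / y ^ 2) := by linarith
  have haa : |a| ^ 2 ≤ (1 / y) ^ 2 := by gcongr
  have hbb : |b| ^ 2 ≤ (1 / y) ^ 2 := by gcongr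
  have hab : |a| * |b| ≤ (1 / y) * (1 / y) := by gcongr
  have h4 : |2 * a ^ 2 + 4 * a * b + 6 * b ^ 2| ≤ 12 * (1 / y) ^ 2 := by
    calc |2 * a ^ 2 + 4 * a * b + 6 * b ^ 2| ≤ |2 * a ^ 2 + 4 * a * b| + |6 * b ^ 2| :=
          abs_add_le _ _
      _ ≤ |2 * a ^ 2| + |4 * a * b| + |6 * b ^ 2| := by gcongr; exact abs_add_le _ _
      _ = 2 * |a| ^ 2 + 4 * (|a| * |b|) + 6 * |b| ^ 2 := by
          rw [abs_mul, abs_mul, abs_mul, abs_mul, abs_pow, abs_pow, abs_two,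
            abs_of_pos (by norm_num : (0 : ℝ) < 4), abs_of_pos (by norm_num : (0 : ℝ) < 6)]
          ring
      _ ≤ 12 * (1 / y) ^ 2 := by nlinarith
  calc |2 * V * a2 + g * (a2 + 2 * b2) - g * (2 * a ^ 2 + 4 * a * b + 6 * b ^ 2)|
      ≤ |2 * V * a2 + g * (a2 + 2 * b2)| + |g * (2 * a ^ 2 + 4 * a * b + 6 * b ^ 2)| :=
        abs_sub _ _
    _ ≤ |2 * V * a2| + |g * (a2 + 2 * b2)| + |g * (2 * a ^ 2 + 4 * a * b + 6 * b ^ 2)| := by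
        gcongr; exact abs_add_le _ _
    _ = 2 * V * |a2| + g * |a2 + 2 * b2| + g * |2 * a ^ 2 + 4 * a * b + 6 * b ^ 2| := by
        rw [abs_mul, abs_of_pos (by positivity : 0 < 2 * V), abs_mul, abs_of_pos hg0, abs_mul,
          abs_of_pos hg0]
    _ ≤ 2 * V * (6 / y ^ 2) + V * (3 * (6 / y ^ 2)) + V * (12 * (1 / y) ^ 2) := by gcongr
    _ = 42 * V / y ^ 2 := by ring
    _ ≤ 42 * q V W / y ^ 2 := by gcongr

lemma abs_ph1_le {Q Q1 : ℝ} (hQ : 0 < Q) (hy : 0 < y) (hF : 0 ≤ F)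
    (hF1 : |F1| ≤ F / y) (hQ1 : |Q1| ≤ 5 * Q / y) : |ph1 F F1 Q Q1| ≤ 7 * ph F Q / y := by
  unfold ph1 ph
  calc |2 * F * F1 / Q - F ^ 2 * Q1 / Q ^ 2| ≤ |2 * F * F1 / Q| + |F ^ 2 * Q1 / Q ^ 2| :=
        abs_sub _ _
    _ = 2 * F * |F1| / Q + F ^ 2 * |Q1| / Q ^ 2 := by
        rw [abs_div, abs_mul, abs_of_nonneg (by positivity : 0 ≤ 2 * F), abs_of_pos hQ, abs_div,
          abs_mul, abs_of_nonneg (by positivity : 0 ≤ F ^ 2), abs_of_pos (by positivity : 0 < Q ^ 2)]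
    _ ≤ 2 * F * (F / y) / Q + F ^ 2 * (5 * Q / y) / Q ^ 2 := by gcongr
    _ = 7 * (F ^ 2 / Q) / y := by field_simp; ring

lemma abs_ph2_le {Q Q1 Q2 : ℝ} (hQ : 0 < Q) (hy : 0 < y) (hF : 0 ≤ F)
    (hF1 : |F1| ≤ F / y) (hF2 : |F2| ≤ 6 * F / y ^ 2) (hQ1 : |Q1| ≤ 5 * Q / y)
    (hQ2 : |Q2| ≤ 42 * Q / y ^ 2) : |ph2 F F1 F2 Q Q1 Q2| ≤ 126 * ph F Q / y ^ 2 := by
  unfold ph2 ph
  have e1 : |2 * F1 ^ 2 / Q| = 2 * |F1| ^ 2 / Q := by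
    rw [abs_div, abs_mul, abs_pow, abs_two, abs_of_pos hQ]
  have e2 : |2 * F * F2 / Q| = 2 * F * |F2| / Q := by
    rw [abs_div, abs_mul, abs_of_nonneg (by positivity : 0 ≤ 2 * F), abs_of_pos hQ]
  have e3 : |4 * F * F1 * Q1 / Q ^ 2| = 4 * F * |F1| * |Q1| / Q ^ 2 := by
    rw [abs_div, abs_mul, abs_mul, abs_of_nonneg (by positivity : 0 ≤ 4 * F),
      abs_of_pos (by positivity : 0 < Q ^ 2)]
  have e4 : |2 * F ^ 2 * Q1 ^ 2 / Q ^ 3| = 2 * F ^ 2 * |Q1| ^ 2 / Q ^ 3 := by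
    rw [abs_div, abs_mul, abs_of_nonneg (by positivity : 0 ≤ 2 * F ^ 2), abs_pow,
      abs_of_pos (by positivity : 0 < Q ^ 3)]
  have e5 : |F ^ 2 * Q2 / Q ^ 2| = F ^ 2 * |Q2| / Q ^ 2 := by
    rw [abs_div, abs_mul, abs_of_nonneg (by positivity : 0 ≤ F ^ 2),
      abs_of_pos (by positivity : 0 < Q ^ 2)]
  calc |2 * F1 ^ 2 / Q + 2 * F * F2 / Q - 4 * F * F1 * Q1 / Q ^ 2 + 2 * F ^ 2 * Q1 ^ 2 / Q ^ 3
        - F ^ 2 * Q2 / Q ^ 2|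
      ≤ |2 * F1 ^ 2 / Q| + |2 * F * F2 / Q| + |4 * F * F1 * Q1 / Q ^ 2|
        + |2 * F ^ 2 * Q1 ^ 2 / Q ^ 3| + |F ^ 2 * Q2 / Q ^ 2| := by
        refine (abs_sub _ _).trans ?_
        gcongr
        refine (abs_add_le _ _).trans ?_
        gcongr
        refine (abs_sub _ _).trans ?_
        gcongr
        exact abs_add_le _ _
    _ = 2 * |F1| ^ 2 / Q + 2 * F * |F2| / Q + 4 * F * |F1| * |Q1| / Q ^ 2
        + 2 * F ^ 2 * |Q1| ^ 2 / Q ^ 3 + F ^ 2 * |Q2| / Q ^ 2 := by rw [e1, e2, e3, e4, e5]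
    _ ≤ 2 * (F / y) ^ 2 / Q + 2 * F * (6 * F / y ^ 2) / Q + 4 * F * (F / y) * (5 * Q / y) / Q ^ 2
        + 2 * F ^ 2 * (5 * Q / y) ^ 2 / Q ^ 3 + F ^ 2 * (42 * Q / y ^ 2) / Q ^ 2 := by gcongr
    _ = 126 * (F ^ 2 / Q) / y ^ 2 := by field_simp; ring

lemma ph2_eq {Q Q1 Q2 : ℝ} (hQ : 0 < Q) :
    ph2 F F1 F2 Q Q1 Q2 = 2 / Q * (F1 - F / Q * Q1) ^ 2 + 2 * F / Q * F2 - F ^ 2 / Q ^ 2 * Q2 := by
  unfold ph2
  field_simp
  ring

lemma key_lower (hV : 0 < V) (hW : 0 < W) (h1 : 1 ≤ V * W) (hA : V * W ≤ A) :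
    F1 ^ 2 * W / (26 * A ^ 3) ≤ 2 / (q V W) * (F1 - F / (q V W) * q1 V V1 W W1) ^ 2
      + F ^ 2 / (q V W) ^ 2 * qh V V1 W W1 := by
  have hA1 : 1 ≤ A := h1.trans hA
  have hA0 : 0 < A := by linarith
  have hQ0 := q_pos hV hW h1
  have hQ2 := q_le hV hW
  have hQ1 := q1_eq (V1 := V1) (W1 := W1) hV hW
  have hqh := qh_eq (V1 := V1) (W1 := W1) hV hW
  have hg := inv_VW hV hW h1
  have hg0 : 0 < 1 / (V * W ^ 2) := by positivity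
  have hg1 : V ≤ A ^ 2 * (1 / (V * W ^ 2)) := by
    rw [mul_one_div, le_div_iff₀ (by positivity)]
    calc V * (V * W ^ 2) = (V * W) ^ 2 := by ring
      _ ≤ A ^ 2 := by gcongr
  set a := V1 / V
  set b := W1 / W
  set g := 1 / (V * W ^ 2)
  set Q := q V W
  set Q1 := q1 V V1 W W1
  set H := qh V V1 W W1
  set D := F1 - F / Q * Q1 with hD
  -- Q1² ≤ 13 V² (a² + b²)
  have h2 : Q1 ^ 2 ≤ 13 * V ^ 2 * (a ^ 2 + b ^ 2) := by
    have h3 : |Q1| ≤ V * (3 * |a| + 2 * |b|) := by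
      rw [hQ1]
      calc |2 * V * a + g * (a + 2 * b)| ≤ |2 * V * a| + |g * (a + 2 * b)| := abs_add_le _ _
        _ = 2 * V * |a| + g * |a + 2 * b| := by
            rw [abs_mul, abs_of_pos (by positivity : 0 < 2 * V), abs_mul, abs_of_pos hg0]
        _ ≤ 2 * V * |a| + V * (|a| + 2 * |b|) := by
            gcongr
            calc |a + 2 * b| ≤ |a| + |2 * b| := abs_add_le _ _
              _ = |a| + 2 * |b| := by rw [abs_mul, abs_two]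
        _ = V * (3 * |a| + 2 * |b|) := by ring
    calc Q1 ^ 2 = |Q1| ^ 2 := (sq_abs _).symm
      _ ≤ (V * (3 * |a| + 2 * |b|)) ^ 2 := by gcongr
      _ = V ^ 2 * (3 * |a| + 2 * |b|) ^ 2 := by ring
      _ ≤ V ^ 2 * (13 * (|a| ^ 2 + |b| ^ 2)) := by
          gcongr
          nlinarith [sq_nonneg (2 * |a| - 3 * |b|)]
      _ = 13 * V ^ 2 * (a ^ 2 + b ^ 2) := by rw [sq_abs, sq_abs]; ring
  have h4 : a ^ 2 + b ^ 2 ≤ 2 * a ^ 2 + 4 * a * b + 6 * b ^ 2 := by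
    nlinarith [sq_nonneg (a + 2 * b), sq_nonneg b]
  -- V (a²+b²) ≤ A² H
  have h5 : V * (a ^ 2 + b ^ 2) ≤ A ^ 2 * H := by
    rw [hqh]
    calc V * (a ^ 2 + b ^ 2) ≤ (A ^ 2 * g) * (2 * a ^ 2 + 4 * a * b + 6 * b ^ 2) := by
          gcongr
      _ = A ^ 2 * (g * (2 * a ^ 2 + 4 * a * b + 6 * b ^ 2)) := by ring
  have hH0 : 0 ≤ H := by
    have : 0 ≤ V * (a ^ 2 + b ^ 2) := by positivity
    have h6 : 0 ≤ A ^ 2 * H := this.trans h5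
    by_contra hneg
    push Not at hneg
    have : A ^ 2 * H < 0 := mul_neg_of_pos_of_neg (by positivity) hneg
    linarith
  -- F1² ≤ 2 D² + 2 (F/Q)² Q1²
  have h7 : F1 ^ 2 ≤ 2 * D ^ 2 + 2 * ((F / Q) ^ 2 * Q1 ^ 2) := by
    have : F1 = D + F / Q * Q1 := by rw [hD]; ring
    rw [this]
    nlinarith [sq_nonneg (D - F / Q * Q1)]
  -- main chain, in the form `F1² W ≤ A (F1² / V)`
  have hWV : W ≤ A / V := by
    rw [le_div_iff₀ hV]; linarith [mul_comm V W]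
  have h8 : F1 ^ 2 / V ≤ 4 / Q * D ^ 2 + 26 * A ^ 2 * (F ^ 2 / Q ^ 2 * H) := by
    have h9 : F1 ^ 2 / V ≤ 2 * D ^ 2 / V + 26 * (F / Q) ^ 2 * (V * (a ^ 2 + b ^ 2)) := by
      rw [div_le_iff₀ hV]
      calc F1 ^ 2 ≤ 2 * D ^ 2 + 2 * ((F / Q) ^ 2 * (13 * V ^ 2 * (a ^ 2 + b ^ 2))) := by
            refine h7.trans ?_
            gcongr
        _ = (2 * D ^ 2 / V + 26 * (F / Q) ^ 2 * (V * (a ^ 2 + b ^ 2))) * V := by
            field_simp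
            ring
    have h10 : 2 * D ^ 2 / V ≤ 4 / Q * D ^ 2 := by
      rw [div_mul_eq_mul_div, div_le_div_iff₀ hV hQ0]
      have : 0 ≤ D ^ 2 := sq_nonneg D
      nlinarith
    calc F1 ^ 2 / V ≤ 2 * D ^ 2 / V + 26 * (F / Q) ^ 2 * (V * (a ^ 2 + b ^ 2)) := h9
      _ ≤ 4 / Q * D ^ 2 + 26 * (F / Q) ^ 2 * (A ^ 2 * H) := by gcongr
      _ = 4 / Q * D ^ 2 + 26 * A ^ 2 * (F ^ 2 / Q ^ 2 * H) := by ring
  have h11 : 0 ≤ 2 / Q * D ^ 2 := by positivity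
  have h12 : 0 ≤ F ^ 2 / Q ^ 2 * H := by positivity
  rw [div_le_iff₀ (by positivity)]
  calc F1 ^ 2 * W ≤ F1 ^ 2 * (A / V) := by gcongr
    _ = A * (F1 ^ 2 / V) := by ring
    _ ≤ A * (4 / Q * D ^ 2 + 26 * A ^ 2 * (F ^ 2 / Q ^ 2 * H)) := by gcongr
    _ = 2 * A * (2 / Q * D ^ 2) + 26 * A ^ 3 * (F ^ 2 / Q ^ 2 * H) := by ring
    _ ≤ 26 * A ^ 3 * (2 / Q * D ^ 2) + 26 * A ^ 3 * (F ^ 2 / Q ^ 2 * H) := by
        gcongr ?_ * _ + _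
        have : A ≤ A ^ 3 := by
          calc A = A ^ 1 := (pow_one A).symm
            _ ≤ A ^ 3 := pow_le_pow_right₀ hA1 (by norm_num)
        linarith
    _ = (2 / Q * D ^ 2 + F ^ 2 / Q ^ 2 * H) * (26 * A ^ 3) := by ring

/-- The lower bound for the Laplacian of the Bellman function. -/
lemma laplace_lower {F1' V1' W1' : ℝ} (hV : 0 < V) (hW : 0 < W) (h1 : 1 ≤ V * W)
    (hA : V * W ≤ A) :
    (F1 ^ 2 + F1' ^ 2) * W / (26 * A ^ 3) ≤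
      ph2 F F1 F2 (q V W) (q1 V V1 W W1) (q2 V V1 V2 W W1 W2)
        + ph2 F F1' (-F2) (q V W) (q1 V V1' W W1') (q2 V V1' (-V2) W W1' (-W2)) := by
  have hQ0 := q_pos hV hW h1
  have e1 := key_lower (F := F) (F1 := F1) (V1 := V1) (W1 := W1) hV hW h1 hA
  have e2 := key_lower (F := F) (F1 := F1') (V1 := V1') (W1 := W1') hV hW h1 hA
  rw [ph2_eq hQ0, ph2_eq hQ0]
  unfold q2
  have e3 : (F1 ^ 2 + F1' ^ 2) * W / (26 * A ^ 3) =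
      F1 ^ 2 * W / (26 * A ^ 3) + F1' ^ 2 * W / (26 * A ^ 3) := by ring
  rw [e3]
  refine (add_le_add e1 e2).trans (le_of_eq ?_)
  ring

end bounds

end Pool.Agent.H24.MP842
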