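import Mathlib

/-!
# A bound for `∫ y G''(y) dy` for bounded convex functions on the half line
-/

set_option autoImplicit false

namespace Pool.Agent.H24.MP842

open MeasureTheory Set Filter
open scoped ENNReal Topology

/-- If `G` is convex (with second derivative `G2 ≥ 0`) and `0 ≤ G ≤ B` on `(0, ∞)`, then
`∫_0^∞ y G''(y) dy ≤ 3 B`. -/
lemma convex_bound {G G1 G2 : ℝ → ℝ} {B : ℝ} (h1 : ∀ y, 0 < y → HasDerivAt G (G1 y) y)
    (h2 : ∀ y, 0 < y → HasDerivAt G1 (G2 y) y) (hpos : ∀ y, 0 < y → 0 ≤ G2 y)
    (hG0 : ∀ y, 0 < y → 0 ≤ G y) (hGB : ∀ y, 0 < y → G y ≤ B) :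
    ∫⁻ y in Ioi (0 : ℝ), ENNReal.ofReal (y * G2 y) ≤ ENNReal.ofReal (3 * B) := by
  have hB : 0 ≤ B := (hG0 1 one_pos).trans (hGB 1 one_pos)
  -- `G1` is monotone on `(0, ∞)`
  have hmono : ∀ a b, 0 < a → a ≤ b → G1 a ≤ G1 b := by
    intro a b ha hab
    have hm : MonotoneOn G1 (Ioi (0 : ℝ)) := by
      refine monotoneOn_of_deriv_nonneg (convex_Ioi 0)
        (fun y hy => (h2 y hy).continuousAt.continuousWithinAt) ?_ ?_
      · rw [interior_Ioi]
        exact fun y hy => (h2 y hy).differentiableAt.differentiableWithinAt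
      · rw [interior_Ioi]
        intro y hy
        rw [(h2 y hy).deriv]
        exact hpos y hy
    exact hm (mem_Ioi.2 ha) (mem_Ioi.2 (lt_of_lt_of_le ha hab)) hab
  -- mean value bounds
  have hmvt : ∀ a b, 0 < a → a < b → (b - a) * G1 a ≤ G b - G a ∧ G b - G a ≤ (b - a) * G1 b := by
    intro a b ha hab
    obtain ⟨c, hc, hc'⟩ := exists_hasDerivAt_eq_slope G G1 hab
      (fun y hy => (h1 y (lt_of_lt_of_le ha hy.1)).continuousAt.continuousWithinAt)
      (fun y hy => h1 y (ha.trans hy.1))
    have hba : 0 < b - a := sub_pos.2 hab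
    rw [eq_div_iff hba.ne'] at hc'
    have h3 := hmono a c ha hc.1.le
    have h4 := hmono c b (ha.trans hc.1) hc.2.le
    constructor <;> nlinarith
  -- `G1 ≤ 0`
  have hG1 : ∀ a, 0 < a → G1 a ≤ 0 := by
    intro a ha
    by_contra hcon
    push Not at hcon
    set b := a + (B + 1) / G1 a with hb
    have hab : a < b := by
      have : 0 < (B + 1) / G1 a := by positivity
      linarith
    have h3 := (hmvt a b ha hab).1
    have h4 : (b - a) * G1 a = B + 1 := by
      rw [hb]; field_simp; ring
    have h5 := hGB b (ha.trans hab)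
    have h6 := hG0 a ha
    linarith
  -- the auxiliary function
  set h : ℝ → ℝ := fun y => y * G1 y - G y with hh
  have hd : ∀ y, 0 < y → HasDerivAt h (y * G2 y) y := by
    intro y hy
    have := ((hasDerivAt_id' y).mul (h2 y hy)).sub (h1 y hy)
    refine this.congr_deriv ?_
    ring
  have hup : ∀ y, 0 < y → h y ≤ 0 := by
    intro y hy
    have h3 := hG1 y hy
    have h4 := hG0 y hy
    simp only [hh]
    nlinarith
  have hlow : ∀ y, 0 < y → -(3 * B) ≤ h y := by
    intro y hy
    have h3 := (hmvt (y / 2) y (by positivity) (by linarith)).2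
    have h4 := hGB y hy
    have h5 := hG0 y hy
    have h6 := hGB (y / 2) (by positivity)
    simp only [hh]
    nlinarith
  have hint : ∀ a b, 0 < a → a ≤ b →
      ∫⁻ y in Ioc a b, ENNReal.ofReal (y * G2 y) ≤ ENNReal.ofReal (3 * B) := by
    intro a b ha hab
    have hc : ContinuousOn h (Icc a b) := fun y hy =>
      (hd y (lt_of_lt_of_le ha hy.1)).continuousAt.continuousWithinAt
    have hio : IntegrableOn (fun y => y * G2 y) (Ioc a b) :=
      intervalIntegral.integrableOn_deriv_of_nonneg hc (fun y hy => hd y (ha.trans hy.1))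
        (fun y hy => mul_nonneg (ha.trans hy.1).le (hpos y (ha.trans hy.1)))
    have heq : ∫ y in a..b, y * G2 y = h b - h a :=
      intervalIntegral.integral_eq_sub_of_hasDerivAt_of_le hab hc
        (fun y hy => hd y (ha.trans hy.1))
        ((intervalIntegrable_iff_integrableOn_Ioc_of_le hab).2 hio)
    rw [intervalIntegral.integral_of_le hab] at heq
    rw [← ofReal_integral_eq_lintegral_ofReal hio]
    · apply ENNReal.ofReal_le_ofReal
      rw [heq]
      have := hup b (lt_of_lt_of_le ha hab)
      have := hlow a ha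
      linarith
    · filter_upwards [ae_restrict_mem measurableSet_Ioc] with y hy
      exact mul_nonneg (ha.trans hy.1).le (hpos y (ha.trans hy.1))
  have hU : Ioi (0 : ℝ) = ⋃ n : ℕ, Ioc (1 / ((n : ℝ) + 1)) ((n : ℝ) + 1) := by
    ext y
    simp only [mem_Ioi, mem_iUnion, mem_Ioc]
    constructor
    · intro hy
      obtain ⟨n, hn⟩ := exists_nat_gt (max y (1 / y))
      refine ⟨n, ?_, ?_⟩
      · have h3 : 1 / y < (n : ℝ) + 1 := by
          have := (le_max_right y (1 / y)).trans_lt hn
          linarith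
        rw [div_lt_iff₀ (by positivity)]
        rw [div_lt_iff₀ hy] at h3
        linarith
      · have := (le_max_left y (1 / y)).trans_lt hn
        linarith
    · rintro ⟨n, hn, _⟩
      exact lt_trans (by positivity) hn
  rw [hU, setLIntegral_iUnion_of_directed]
  · refine iSup_le fun n => hint _ _ (by positivity) ?_
    rw [div_le_iff₀ (by positivity)]
    have : (0 : ℝ) ≤ n := by positivity
    nlinarith
  · refine Monotone.directed_le fun m n hmn => ?_
    refine Ioc_subset_Ioc ?_ ?_
    · apply one_div_le_one_div_of_le (by positivity)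
      have : (m : ℝ) ≤ n := by exact_mod_cast hmn
      linarith
    · have : (m : ℝ) ≤ n := by exact_mod_cast hmn
      linarith

end Pool.Agent.H24.MP842
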