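import Pool.Agent.H24.MP842.Kernel
import Pool.Agent.H24.MP842.Calc
import Pool.Agent.H24.MP842.Convex

/-!
# The Bellman function argument for `A_2` type pairs of Poisson integrals
-/

set_option autoImplicit false

namespace Pool.Agent.H24.MP842

open MeasureTheory Set Filter
open scoped ENNReal NNReal Topology

lemma k0_eq (s : ℝ) {y : ℝ} (hy : 0 < y) :
    k0 s y = 1 / (Real.pi * y) * (1 + (s / y) ^ 2)⁻¹ := by
  unfold k0
  field_simp
  ring

lemma integrable_k0 (x : ℝ) {y : ℝ} (hy : 0 < y) : Integrable (fun z => k0 (z - x) y) := by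
  have h1 : Integrable (fun s : ℝ => (1 + (s / y) ^ 2)⁻¹) :=
    integrable_inv_one_add_sq.comp_div hy.ne'
  have h2 : Integrable (fun s => k0 s y) := by
    have := h1.const_mul (1 / (Real.pi * y))
    refine this.congr (Eventually.of_forall fun s => ?_)
    exact (k0_eq s hy).symm
  exact h2.comp_sub_right x

lemma integral_k0 (x : ℝ) {y : ℝ} (hy : 0 < y) : ∫ z, k0 (z - x) y = 1 := by
  rw [integral_sub_right_eq_self (fun s => k0 s y) x]
  have h1 : ∫ s, k0 s y = ∫ s, 1 / (Real.pi * y) * (1 + (s / y) ^ 2)⁻¹ :=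
    integral_congr_ae (Eventually.of_forall fun s => k0_eq s hy)
  rw [h1, integral_const_mul, Measure.integral_comp_div (fun s : ℝ => (1 + s ^ 2)⁻¹) y,
    integral_univ_inv_one_add_sq, abs_of_pos hy, smul_eq_mul]
  field_simp

lemma lintegral_k0 (x : ℝ) {y : ℝ} (hy : 0 < y) : ∫⁻ z, ENNReal.ofReal (k0 (z - x) y) = 1 := by
  rw [← ofReal_integral_eq_lintegral_ofReal (integrable_k0 x hy)
    (Eventually.of_forall fun z => k0_nonneg (z - x) hy), integral_k0 x hy, ENNReal.ofReal_one]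

/-- the Poisson integral as a lower Lebesgue integral -/
lemma ofReal_pu {ν : Measure ℝ} (hν : Good ν) (z : ℝ) {y : ℝ} (hy : 0 < y) :
    ENNReal.ofReal (pu ν z y) = ∫⁻ x, ENNReal.ofReal (k0 (z - x) y) ∂ν := by
  unfold pu
  rw [← ofReal_integral_eq_lintegral_ofReal (hν z y hy)
    (Eventually.of_forall fun x => k0_nonneg (z - x) hy)]

section mass

variable {ν : Measure ℝ} [IsFiniteMeasure ν]

lemma lintegral_pu (hν : Good ν) {y : ℝ} (hy : 0 < y) :
    ∫⁻ z, ENNReal.ofReal (pu ν z y) = ν univ := by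
  calc ∫⁻ z, ENNReal.ofReal (pu ν z y) = ∫⁻ z, ∫⁻ x, ENNReal.ofReal (k0 (z - x) y) ∂ν :=
        lintegral_congr fun z => ofReal_pu hν z hy
    _ = ∫⁻ x, (∫⁻ z, ENNReal.ofReal (k0 (z - x) y)) ∂ν := by
        refine lintegral_lintegral_swap (f := fun z x => ENNReal.ofReal (k0 (z - x) y)) ?_
        refine Measurable.aemeasurable ?_
        apply Measurable.ennreal_ofReal
        exact measurable_k0.comp
          (by fun_prop : Measurable fun r : ℝ × ℝ => ((r.1 - r.2, y) : ℝ × ℝ))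
    _ = ∫⁻ _x, 1 ∂ν := lintegral_congr fun x => lintegral_k0 x hy
    _ = ν univ := by simp

lemma integrable_pu (hν : Good ν) {y : ℝ} (hy : 0 < y) : Integrable (fun z => pu ν z y) := by
  refine ⟨(measurable_pu.comp
    (by fun_prop : Measurable fun z : ℝ => ((z, y) : ℝ × ℝ))).aestronglyMeasurable, ?_⟩
  rw [hasFiniteIntegral_iff_ofReal (Eventually.of_forall fun z => pu_nonneg ν z hy),
    lintegral_pu hν hy]
  exact measure_lt_top ν univ

lemma integral_pu (hν : Good ν) {y : ℝ} (hy : 0 < y) : ∫ z, pu ν z y = ν.real univ := by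
  rw [integral_eq_lintegral_of_nonneg_ae (Eventually.of_forall fun z => pu_nonneg ν z hy)
    (integrable_pu hν hy).aestronglyMeasurable, lintegral_pu hν hy]
  rfl

end mass

section main

variable {νF νV νW νX : Measure ℝ}

/-- denominator -/
noncomputable def Qf (νV νW : Measure ℝ) (z y : ℝ) : ℝ := q (pu νV z y) (pu νW z y)

noncomputable def Qz (νV νW : Measure ℝ) (z y : ℝ) : ℝ :=
  q1 (pu νV z y) (puz νV z y) (pu νW z y) (puz νW z y)

noncomputable def Qy (νV νW : Measure ℝ) (z y : ℝ) : ℝ :=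
  q1 (pu νV z y) (puy νV z y) (pu νW z y) (puy νW z y)

noncomputable def Qzz (νV νW : Measure ℝ) (z y : ℝ) : ℝ :=
  q2 (pu νV z y) (puz νV z y) (puzz νV z y) (pu νW z y) (puz νW z y) (puzz νW z y)

noncomputable def Qyy (νV νW : Measure ℝ) (z y : ℝ) : ℝ :=
  q2 (pu νV z y) (puy νV z y) (-puzz νV z y) (pu νW z y) (puy νW z y) (-puzz νW z y)

/-- The Bellman function. -/
noncomputable def P0 (νF νV νW : Measure ℝ) (z y : ℝ) : ℝ := ph (pu νF z y) (Qf νV νW z y)

noncomputable def Pz (νF νV νW : Measure ℝ) (z y : ℝ) : ℝ :=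
  ph1 (pu νF z y) (puz νF z y) (Qf νV νW z y) (Qz νV νW z y)

noncomputable def Py (νF νV νW : Measure ℝ) (z y : ℝ) : ℝ :=
  ph1 (pu νF z y) (puy νF z y) (Qf νV νW z y) (Qy νV νW z y)

noncomputable def Pzz (νF νV νW : Measure ℝ) (z y : ℝ) : ℝ :=
  ph2 (pu νF z y) (puz νF z y) (puzz νF z y) (Qf νV νW z y) (Qz νV νW z y) (Qzz νV νW z y)

noncomputable def Pyy (νF νV νW : Measure ℝ) (z y : ℝ) : ℝ :=
  ph2 (pu νF z y) (puy νF z y) (-puzz νF z y) (Qf νV νW z y) (Qy νV νW z y) (Qyy νV νW z y)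

/-- The standing hypotheses of the Bellman argument. -/
structure Setup (νF νV νW νX : Measure ℝ) (A : ℝ) : Prop where
  gF : Good νF
  gV : Good νV
  gW : Good νW
  gX : Good νX
  sF : SFinite νF
  sV : SFinite νV
  sW : SFinite νW
  fX : IsFiniteMeasure νX
  nV : νV ≠ 0
  nW : νW ≠ 0
  low : ∀ z y, 0 < y → 1 ≤ pu νV z y * pu νW z y
  up : ∀ z y, 0 < y → pu νV z y * pu νW z y ≤ A
  cs : ∀ z y, 0 < y → pu νF z y ^ 2 ≤ pu νV z y * pu νX z y

namespace Setup

variable {A : ℝ} (h : Setup νF νV νW νX A)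
include h

lemma posV (z : ℝ) {y : ℝ} (hy : 0 < y) : 0 < pu νV z y := pu_pos h.gV h.nV z hy

lemma posW (z : ℝ) {y : ℝ} (hy : 0 < y) : 0 < pu νW z y := pu_pos h.gW h.nW z hy

lemma posQ (z : ℝ) {y : ℝ} (hy : 0 < y) : 0 < Qf νV νW z y :=
  q_pos (h.posV z hy) (h.posW z hy) (h.low z y hy)

lemma dQz (z : ℝ) {y : ℝ} (hy : 0 < y) :
    HasDerivAt (fun z => Qf νV νW z y) (Qz νV νW z y) z :=
  hasDerivAt_q (V := fun z => pu νV z y) (W := fun z => pu νW z y) (V1 := fun z => puz νV z y)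
    (W1 := fun z => puz νW z y) (hasDerivAt_pu_z h.gV z hy) (hasDerivAt_pu_z h.gW z hy)
    (h.posV z hy).ne' (h.posW z hy).ne'

lemma dQy (z : ℝ) {y : ℝ} (hy : 0 < y) :
    HasDerivAt (fun y => Qf νV νW z y) (Qy νV νW z y) y :=
  hasDerivAt_q (V := fun y => pu νV z y) (W := fun y => pu νW z y) (V1 := fun y => puy νV z y)
    (W1 := fun y => puy νW z y) (hasDerivAt_pu_y h.gV z hy) (hasDerivAt_pu_y h.gW z hy)
    (h.posV z hy).ne' (h.posW z hy).ne'

lemma dQzz (z : ℝ) {y : ℝ} (hy : 0 < y) :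
    HasDerivAt (fun z => Qz νV νW z y) (Qzz νV νW z y) z :=
  hasDerivAt_q1 (V := fun z => pu νV z y) (W := fun z => pu νW z y) (V1 := fun z => puz νV z y)
    (W1 := fun z => puz νW z y) (hasDerivAt_pu_z h.gV z hy) (hasDerivAt_pu_z h.gW z hy)
    (hasDerivAt_puz_z h.gV z hy) (hasDerivAt_puz_z h.gW z hy)
    (h.posV z hy).ne' (h.posW z hy).ne'

lemma dQyy (z : ℝ) {y : ℝ} (hy : 0 < y) :
    HasDerivAt (fun y => Qy νV νW z y) (Qyy νV νW z y) y :=
  hasDerivAt_q1 (V := fun y => pu νV z y) (W := fun y => pu νW z y) (V1 := fun y => puy νV z y)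
    (W1 := fun y => puy νW z y) (hasDerivAt_pu_y h.gV z hy) (hasDerivAt_pu_y h.gW z hy)
    (hasDerivAt_puy_y h.gV z hy) (hasDerivAt_puy_y h.gW z hy)
    (h.posV z hy).ne' (h.posW z hy).ne'

lemma dPz (z : ℝ) {y : ℝ} (hy : 0 < y) :
    HasDerivAt (fun z => P0 νF νV νW z y) (Pz νF νV νW z y) z :=
  hasDerivAt_ph (F := fun z => pu νF z y) (F1 := fun z => puz νF z y)
    (Q := fun z => Qf νV νW z y) (Q1 := fun z => Qz νV νW z y)
    (hasDerivAt_pu_z h.gF z hy) (h.dQz z hy) (h.posQ z hy).ne'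

lemma dPy (z : ℝ) {y : ℝ} (hy : 0 < y) :
    HasDerivAt (fun y => P0 νF νV νW z y) (Py νF νV νW z y) y :=
  hasDerivAt_ph (F := fun y => pu νF z y) (F1 := fun y => puy νF z y)
    (Q := fun y => Qf νV νW z y) (Q1 := fun y => Qy νV νW z y)
    (hasDerivAt_pu_y h.gF z hy) (h.dQy z hy) (h.posQ z hy).ne'

lemma dPzz (z : ℝ) {y : ℝ} (hy : 0 < y) :
    HasDerivAt (fun z => Pz νF νV νW z y) (Pzz νF νV νW z y) z :=
  hasDerivAt_ph1 (F := fun z => pu νF z y) (F1 := fun z => puz νF z y)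
    (Q := fun z => Qf νV νW z y) (Q1 := fun z => Qz νV νW z y)
    (hasDerivAt_pu_z h.gF z hy) (h.dQz z hy) (hasDerivAt_puz_z h.gF z hy) (h.dQzz z hy)
    (h.posQ z hy).ne'

lemma dPyy (z : ℝ) {y : ℝ} (hy : 0 < y) :
    HasDerivAt (fun y => Py νF νV νW z y) (Pyy νF νV νW z y) y :=
  hasDerivAt_ph1 (F := fun y => pu νF z y) (F1 := fun y => puy νF z y)
    (Q := fun y => Qf νV νW z y) (Q1 := fun y => Qy νV νW z y)
    (hasDerivAt_pu_y h.gF z hy) (h.dQy z hy) (hasDerivAt_puy_y h.gF z hy) (h.dQyy z hy)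
    (h.posQ z hy).ne'

lemma P0_nonneg (z : ℝ) {y : ℝ} (hy : 0 < y) : 0 ≤ P0 νF νV νW z y := by
  unfold P0 ph
  have := h.posQ z hy
  positivity

lemma P0_le (z : ℝ) {y : ℝ} (hy : 0 < y) : P0 νF νV νW z y ≤ pu νX z y := by
  unfold P0 ph
  have hV := h.posV z hy
  have hQ := h.posQ z hy
  have hVQ : pu νV z y ≤ Qf νV νW z y := le_q hV (h.posW z hy) (h.low z y hy)
  rw [div_le_iff₀ hQ]
  calc pu νF z y ^ 2 ≤ pu νV z y * pu νX z y := h.cs z y hy
    _ ≤ Qf νV νW z y * pu νX z y := by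
        gcongr
        exact pu_nonneg νX z hy
    _ = pu νX z y * Qf νV νW z y := mul_comm _ _

lemma abs_puzz_neg (ν : Measure ℝ) (hν : Good ν) (z : ℝ) {y : ℝ} (hy : 0 < y) :
    |-puzz ν z y| ≤ 6 * pu ν z y / y ^ 2 := by
  rw [abs_neg]; exact abs_puzz_le hν z hy

lemma abs_Pz (z : ℝ) {y : ℝ} (hy : 0 < y) : |Pz νF νV νW z y| ≤ 7 * pu νX z y / y := by
  refine (abs_ph1_le (h.posQ z hy) hy (pu_nonneg νF z hy) (abs_puz_le h.gF z hy)
    (abs_q1_le (h.posV z hy) (h.posW z hy) (h.low z y hy) hy (abs_puz_le h.gV z hy)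
      (abs_puz_le h.gW z hy))).trans ?_
  have := h.P0_le z hy
  unfold P0 at this
  gcongr

lemma abs_Py (z : ℝ) {y : ℝ} (hy : 0 < y) : |Py νF νV νW z y| ≤ 7 * pu νX z y / y := by
  refine (abs_ph1_le (h.posQ z hy) hy (pu_nonneg νF z hy) (abs_puy_le h.gF z hy)
    (abs_q1_le (h.posV z hy) (h.posW z hy) (h.low z y hy) hy (abs_puy_le h.gV z hy)
      (abs_puy_le h.gW z hy))).trans ?_
  have := h.P0_le z hy
  unfold P0 at this
  gcongr

lemma abs_Pzz (z : ℝ) {y : ℝ} (hy : 0 < y) : |Pzz νF νV νW z y| ≤ 126 * pu νX z y / y ^ 2 := by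
  refine (abs_ph2_le (h.posQ z hy) hy (pu_nonneg νF z hy) (abs_puz_le h.gF z hy)
    (abs_puzz_le h.gF z hy)
    (abs_q1_le (h.posV z hy) (h.posW z hy) (h.low z y hy) hy (abs_puz_le h.gV z hy)
      (abs_puz_le h.gW z hy))
    (abs_q2_le (h.posV z hy) (h.posW z hy) (h.low z y hy) hy (abs_puz_le h.gV z hy)
      (abs_puz_le h.gW z hy) (abs_puzz_le h.gV z hy) (abs_puzz_le h.gW z hy))).trans ?_
  have := h.P0_le z hy
  unfold P0 at this
  gcongr

lemma abs_Pyy (z : ℝ) {y : ℝ} (hy : 0 < y) : |Pyy νF νV νW z y| ≤ 126 * pu νX z y / y ^ 2 := by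
  refine (abs_ph2_le (h.posQ z hy) hy (pu_nonneg νF z hy) (abs_puy_le h.gF z hy)
    (h.abs_puzz_neg νF h.gF z hy)
    (abs_q1_le (h.posV z hy) (h.posW z hy) (h.low z y hy) hy (abs_puy_le h.gV z hy)
      (abs_puy_le h.gW z hy))
    (abs_q2_le (h.posV z hy) (h.posW z hy) (h.low z y hy) hy (abs_puy_le h.gV z hy)
      (abs_puy_le h.gW z hy) (h.abs_puzz_neg νV h.gV z hy)
      (h.abs_puzz_neg νW h.gW z hy))).trans ?_
  have := h.P0_le z hy
  unfold P0 at this
  gcongr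

lemma meas :
    (Measurable fun r : ℝ × ℝ => P0 νF νV νW r.1 r.2) ∧
    (Measurable fun r : ℝ × ℝ => Pz νF νV νW r.1 r.2) ∧
    (Measurable fun r : ℝ × ℝ => Py νF νV νW r.1 r.2) ∧
    (Measurable fun r : ℝ × ℝ => Pzz νF νV νW r.1 r.2) ∧
    (Measurable fun r : ℝ × ℝ => Pyy νF νV νW r.1 r.2) := by
  have := h.sF
  have := h.sV
  have := h.sW
  have f0 := measurable_pu (ν := νF)
  have f1 := measurable_puz (ν := νF)
  have f2 := measurable_puy (ν := νF)
  have f3 := measurable_puzz (ν := νF)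
  have v0 := measurable_pu (ν := νV)
  have v1 := measurable_puz (ν := νV)
  have v2 := measurable_puy (ν := νV)
  have v3 := measurable_puzz (ν := νV)
  have w0 := measurable_pu (ν := νW)
  have w1 := measurable_puz (ν := νW)
  have w2 := measurable_puy (ν := νW)
  have w3 := measurable_puzz (ν := νW)
  refine ⟨?_, ?_, ?_, ?_, ?_⟩
  · simp only [P0, ph, Qf, q]; fun_prop
  · simp only [Pz, ph1, Qf, q, Qz, q1]; fun_prop
  · simp only [Py, ph1, Qf, q, Qy, q1]; fun_prop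
  · simp only [Pzz, ph2, Qf, q, Qz, q1, Qzz, q2, qh]; fun_prop
  · simp only [Pyy, ph2, Qf, q, Qy, q1, Qyy, q2, qh]; fun_prop

lemma slice {f : ℝ → ℝ → ℝ} (hf : Measurable fun r : ℝ × ℝ => f r.1 r.2) (y : ℝ) :
    AEStronglyMeasurable (fun z => f z y) volume :=
  (hf.comp (by fun_prop : Measurable fun z : ℝ => ((z, y) : ℝ × ℝ))).aestronglyMeasurable

lemma int_of_bound {f : ℝ → ℝ → ℝ} (hf : Measurable fun r : ℝ × ℝ => f r.1 r.2) {y c : ℝ}
    (hy : 0 < y) (hb : ∀ z, |f z y| ≤ c * pu νX z y) : Integrable (fun z => f z y) := by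
  have := h.fX
  refine Integrable.mono' ((integrable_pu h.gX hy).const_mul c) (h.slice hf y) ?_
  exact Eventually.of_forall fun z => by simpa [Real.norm_eq_abs] using hb z

lemma int_P0 {y : ℝ} (hy : 0 < y) : Integrable (fun z => P0 νF νV νW z y) :=
  h.int_of_bound (c := 1) h.meas.1 hy fun z => by
    rw [abs_of_nonneg (h.P0_nonneg z hy), one_mul]; exact h.P0_le z hy

lemma int_Pz {y : ℝ} (hy : 0 < y) : Integrable (fun z => Pz νF νV νW z y) :=
  h.int_of_bound (c := 7 / y) h.meas.2.1 hy fun z =>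
    (h.abs_Pz z hy).trans (le_of_eq (by ring))

lemma int_Py {y : ℝ} (hy : 0 < y) : Integrable (fun z => Py νF νV νW z y) :=
  h.int_of_bound (c := 7 / y) h.meas.2.2.1 hy fun z =>
    (h.abs_Py z hy).trans (le_of_eq (by ring))

lemma int_Pzz {y : ℝ} (hy : 0 < y) : Integrable (fun z => Pzz νF νV νW z y) :=
  h.int_of_bound (c := 126 / y ^ 2) h.meas.2.2.2.1 hy fun z =>
    (h.abs_Pzz z hy).trans (le_of_eq (by ring))

lemma int_Pyy {y : ℝ} (hy : 0 < y) : Integrable (fun z => Pyy νF νV νW z y) :=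
  h.int_of_bound (c := 126 / y ^ 2) h.meas.2.2.2.2 hy fun z =>
    (h.abs_Pyy z hy).trans (le_of_eq (by ring))

lemma integral_Pzz {y : ℝ} (hy : 0 < y) : ∫ z, Pzz νF νV νW z y = 0 :=
  integral_eq_zero_of_hasDerivAt_of_integrable (fun z => h.dPzz z hy) (h.int_Pzz hy) (h.int_Pz hy)

lemma dG {y : ℝ} (hy : 0 < y) :
    HasDerivAt (fun y => ∫ z, P0 νF νV νW z y) (∫ z, Py νF νV νW z y) y := by
  have := h.fX
  have hs : Ioo (y / 2) (2 * y) ∈ 𝓝 y := Ioo_mem_nhds (by linarith) (by linarith)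
  refine (hasDerivAt_integral_of_dominated_loc_of_deriv_le (μ := (volume : Measure ℝ)) (𝕜 := ℝ)
    (F := fun y z => P0 νF νV νW z y) (F' := fun y z => Py νF νV νW z y)
    (bound := fun z => 14 / y * (12 * pu νX z y)) hs ?_ ?_ ?_ ?_ ?_ ?_).2
  · exact Eventually.of_forall fun y' => h.slice h.meas.1 y'
  · exact h.int_P0 hy
  · exact h.slice h.meas.2.2.1 y
  · refine Eventually.of_forall fun z y' hy' => ?_
    have hy0 : 0 < y' := by linarith [hy'.1]
    rw [Real.norm_eq_abs]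
    refine (h.abs_Py z hy0).trans ?_
    have h3 : 1 / y' ≤ 2 / y := by
      rw [div_le_div_iff₀ hy0 hy]; linarith [hy'.1]
    have h4 := pu_nonneg νX z hy0
    calc 7 * pu νX z y' / y' = 7 * (1 / y') * pu νX z y' := by ring
      _ ≤ 7 * (2 / y) * (12 * pu νX z y) := by
          gcongr
          exact pu_le_pu h.gX z hy hy'.1.le hy'.2.le
      _ = 14 / y * (12 * pu νX z y) := by ring
  · exact ((integrable_pu h.gX hy).const_mul 12).const_mul _
  · exact Eventually.of_forall fun z y' hy' => h.dPy z (by linarith [hy'.1])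

lemma dG1 {y : ℝ} (hy : 0 < y) :
    HasDerivAt (fun y => ∫ z, Py νF νV νW z y) (∫ z, Pyy νF νV νW z y) y := by
  have := h.fX
  have hs : Ioo (y / 2) (2 * y) ∈ 𝓝 y := Ioo_mem_nhds (by linarith) (by linarith)
  refine (hasDerivAt_integral_of_dominated_loc_of_deriv_le (μ := (volume : Measure ℝ)) (𝕜 := ℝ)
    (F := fun y z => Py νF νV νW z y) (F' := fun y z => Pyy νF νV νW z y)
    (bound := fun z => 504 / y ^ 2 * (12 * pu νX z y)) hs ?_ ?_ ?_ ?_ ?_ ?_).2
  · exact Eventually.of_forall fun y' => h.slice h.meas.2.2.1 y'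
  · exact h.int_Py hy
  · exact h.slice h.meas.2.2.2.2 y
  · refine Eventually.of_forall fun z y' hy' => ?_
    have hy0 : 0 < y' := by linarith [hy'.1]
    rw [Real.norm_eq_abs]
    refine (h.abs_Pyy z hy0).trans ?_
    have h3 : 1 / y' ^ 2 ≤ 4 / y ^ 2 := by
      rw [div_le_div_iff₀ (by positivity) (by positivity)]; nlinarith [hy'.1]
    have h4 := pu_nonneg νX z hy0
    calc 126 * pu νX z y' / y' ^ 2 = 126 * (1 / y' ^ 2) * pu νX z y' := by ring
      _ ≤ 126 * (4 / y ^ 2) * (12 * pu νX z y) := by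
          gcongr
          exact pu_le_pu h.gX z hy hy'.1.le hy'.2.le
      _ = 504 / y ^ 2 * (12 * pu νX z y) := by ring
  · exact ((integrable_pu h.gX hy).const_mul 12).const_mul _
  · exact Eventually.of_forall fun z y' hy' => h.dPyy z (by linarith [hy'.1])

lemma one_le_A : 1 ≤ A := (h.low 0 1 one_pos).trans (h.up 0 1 one_pos)

lemma lower {y : ℝ} (hy : 0 < y) (z : ℝ) :
    (puz νF z y ^ 2 + puy νF z y ^ 2) * pu νW z y / (26 * A ^ 3) ≤
      Pzz νF νV νW z y + Pyy νF νV νW z y :=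
  laplace_lower (F := pu νF z y) (h.posV z hy) (h.posW z hy) (h.low z y hy) (h.up z y hy)

lemma lower_int {y : ℝ} (hy : 0 < y) :
    ∫⁻ z, ENNReal.ofReal ((puz νF z y ^ 2 + puy νF z y ^ 2) * pu νW z y / (26 * A ^ 3)) ≤
      ENNReal.ofReal (∫ z, Pyy νF νV νW z y) := by
  have hA := h.one_le_A
  have h1 : ∫ z, Pyy νF νV νW z y = ∫ z, (Pzz νF νV νW z y + Pyy νF νV νW z y) := by
    rw [integral_add (h.int_Pzz hy) (h.int_Pyy hy), h.integral_Pzz hy, zero_add]
  have h0 : ∀ z, 0 ≤ Pzz νF νV νW z y + Pyy νF νV νW z y := by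
    intro z
    refine le_trans ?_ (h.lower hy z)
    have := h.posW z hy
    positivity
  have hi : Integrable (fun z => Pzz νF νV νW z y + Pyy νF νV νW z y) :=
    (h.int_Pzz hy).add (h.int_Pyy hy)
  rw [h1, ofReal_integral_eq_lintegral_ofReal hi (Eventually.of_forall h0)]
  exact lintegral_mono fun z => ENNReal.ofReal_le_ofReal (h.lower hy z)

lemma Pyy_int_nonneg {y : ℝ} (hy : 0 < y) : 0 ≤ ∫ z, Pyy νF νV νW z y := by
  have hA := h.one_le_A
  have h1 : ∫ z, Pyy νF νV νW z y = ∫ z, (Pzz νF νV νW z y + Pyy νF νV νW z y) := by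
    rw [integral_add (h.int_Pzz hy) (h.int_Pyy hy), h.integral_Pzz hy, zero_add]
  rw [h1]
  refine integral_nonneg fun z => ?_
  refine le_trans ?_ (h.lower hy z)
  have := h.posW z hy
  positivity

/-- The weighted square function estimate from the Bellman function. -/
theorem square_bound :
    ∫⁻ y in Ioi (0 : ℝ), ∫⁻ z, ENNReal.ofReal
      (y * (puz νF z y ^ 2 + puy νF z y ^ 2) * pu νW z y) ≤
      ENNReal.ofReal (78 * A ^ 3) * νX univ := by
  have := h.fX
  have hA := h.one_le_A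
  have hA3 : (0 : ℝ) < 26 * A ^ 3 := by positivity
  have key := convex_bound (G := fun y => ∫ z, P0 νF νV νW z y)
    (G1 := fun y => ∫ z, Py νF νV νW z y) (G2 := fun y => ∫ z, Pyy νF νV νW z y)
    (B := νX.real univ) (fun y hy => h.dG hy) (fun y hy => h.dG1 hy)
    (fun y hy => h.Pyy_int_nonneg hy)
    (fun y hy => integral_nonneg fun z => h.P0_nonneg z hy)
    (fun y hy => by
      rw [← integral_pu h.gX hy]
      exact integral_mono (h.int_P0 hy) (integrable_pu h.gX hy) fun z => h.P0_le z hy)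
  have h2 : ∫⁻ y in Ioi (0 : ℝ), ∫⁻ z, ENNReal.ofReal
      (y * (puz νF z y ^ 2 + puy νF z y ^ 2) * pu νW z y) ≤
      ∫⁻ y in Ioi (0 : ℝ), ENNReal.ofReal (26 * A ^ 3) *
        ENNReal.ofReal (y * ∫ z, Pyy νF νV νW z y) := by
    refine setLIntegral_mono' measurableSet_Ioi fun y hy => ?_
    have hy0 : 0 < y := hy
    have e : ∀ z, ENNReal.ofReal (y * (puz νF z y ^ 2 + puy νF z y ^ 2) * pu νW z y) =
        ENNReal.ofReal (26 * A ^ 3 * y) *
        ENNReal.ofReal ((puz νF z y ^ 2 + puy νF z y ^ 2) * pu νW z y / (26 * A ^ 3)) := by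
      intro z
      rw [← ENNReal.ofReal_mul (by positivity)]
      congr 1
      field_simp
    simp_rw [e]
    rw [lintegral_const_mul' _ _ ENNReal.ofReal_ne_top]
    calc ENNReal.ofReal (26 * A ^ 3 * y) * ∫⁻ z, ENNReal.ofReal
            ((puz νF z y ^ 2 + puy νF z y ^ 2) * pu νW z y / (26 * A ^ 3))
        ≤ ENNReal.ofReal (26 * A ^ 3 * y) * ENNReal.ofReal (∫ z, Pyy νF νV νW z y) := by
          gcongr
          exact h.lower_int hy0
      _ = ENNReal.ofReal (26 * A ^ 3) * ENNReal.ofReal (y * ∫ z, Pyy νF νV νW z y) := by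
          rw [← ENNReal.ofReal_mul (by positivity), ← ENNReal.ofReal_mul (by positivity)]
          congr 1
          ring
  refine h2.trans ?_
  rw [lintegral_const_mul' _ _ ENNReal.ofReal_ne_top]
  calc ENNReal.ofReal (26 * A ^ 3) *
        ∫⁻ y in Ioi (0 : ℝ), ENNReal.ofReal (y * ∫ z, Pyy νF νV νW z y)
      ≤ ENNReal.ofReal (26 * A ^ 3) * ENNReal.ofReal (3 * νX.real univ) := by gcongr
    _ = ENNReal.ofReal (78 * A ^ 3) * νX univ := by
        rw [← ENNReal.ofReal_mul (by positivity)]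
        have e : 26 * A ^ 3 * (3 * νX.real univ) = 78 * A ^ 3 * νX.real univ := by ring
        rw [e, ENNReal.ofReal_mul (by positivity), ofReal_measureReal]

end Setup

end main

end Pool.Agent.H24.MP842
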