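import Mathlib

/-!
# Weights, the conditions `A_r` and `B_r`, and the weighted inequality for `g_λ^*`
-/

set_option autoImplicit false

namespace Pool.Agent.H24.MP842

open MeasureTheory Set
open scoped ENNReal NNReal

/-- A weight on `ℝ`: a nonnegative locally integrable function. -/
def IsWeight (U : ℝ → ℝ) : Prop := (∀ x, 0 ≤ U x) ∧ LocallyIntegrable U volume

/-- The Muckenhoupt condition `A_r`:
`(1/|I| ∫_I U) (1/|I| ∫_I U^{-1/(r-1)})^{r-1} ≤ C` for every bounded interval `I = [a, b]`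
(with values in `[0, ∞]`; `U^{-1/(r-1)} = ∞` where `U = 0`). -/
def MemA (r : ℝ) (U : ℝ → ℝ) : Prop :=
  ∃ C : ℝ≥0, ∀ a b : ℝ, a < b →
    ((∫⁻ x in Icc a b, ENNReal.ofReal (U x)) / ENNReal.ofReal (b - a)) *
      ((∫⁻ x in Icc a b, (ENNReal.ofReal (U x)) ^ (-1 / (r - 1))) / ENNReal.ofReal (b - a)) ^ (r - 1)
      ≤ C

/-- The condition `B_r`: for every bounded interval `I = [a, b]` with centre `x_I`,
`∫_ℝ |I|^{r-1} U(x) / (|I|^r + |x - x_I|^r) dx ≤ (C/|I|) ∫_I U`. -/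
def MemB (r : ℝ) (U : ℝ → ℝ) : Prop :=
  ∃ C : ℝ≥0, ∀ a b : ℝ, a < b →
    ∫⁻ x, ENNReal.ofReal ((b - a) ^ (r - 1) * U x / ((b - a) ^ r + |x - (a + b) / 2| ^ r))
      ≤ ENNReal.ofReal (C / (b - a)) * ∫⁻ x in Icc a b, ENNReal.ofReal (U x)

/-- The Poisson integral `f(z, y) = (1/π) ∫ y f(z - x) / (x² + y²) dx` of `f : ℝ → ℝ`. -/
noncomputable def poisson (f : ℝ → ℝ) (z y : ℝ) : ℝ :=
  1 / Real.pi * ∫ x, y * f (z - x) / (x ^ 2 + y ^ 2)

/-- `|∇ f(z, y)|²`, the square of the length of the gradient in `(z, y)` of the Poisson integral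
of `f`. -/
noncomputable def gradSq (f : ℝ → ℝ) (z y : ℝ) : ℝ :=
  (deriv (fun z' => poisson f z' y) z) ^ 2 + (deriv (fun y' => poisson f z y') y) ^ 2

/-- The Littlewood-Paley function
`g_λ^*(x) = (∫_ℝ ∫_0^∞ (y / (|x - z| + y))^λ |∇ f(z, y)|² dy dz)^{1/2}`, with values in `[0, ∞]`. -/
noncomputable def gStar (lam : ℝ) (f : ℝ → ℝ) (x : ℝ) : ℝ≥0∞ :=
  (∫⁻ z, ∫⁻ y in Ioi (0 : ℝ),
    ENNReal.ofReal ((y / (|x - z| + y)) ^ lam * gradSq f z y)) ^ (1 / 2 : ℝ)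

/-- The weighted inequality: for some finite `C`,
`∫ g_λ^*(f)(x)^p U(x) dx ≤ C ∫ |f(x)|^p U(x) dx` for every (Lebesgue) measurable `f : ℝ → ℝ` for
which the right side is finite. -/
def StarInequality (lam p : ℝ) (U : ℝ → ℝ) : Prop :=
  ∃ C : ℝ≥0, ∀ f : ℝ → ℝ, AEMeasurable f volume →
    ∫⁻ x, ENNReal.ofReal (|f x| ^ p * U x) < ∞ →
    ∫⁻ x, gStar lam f x ^ p * ENNReal.ofReal (U x) ≤
      C * ∫⁻ x, ENNReal.ofReal (|f x| ^ p * U x)

end Pool.Agent.H24.MP842
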