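import Mathlib

/-!
# The Poisson kernel of the upper half plane and Poisson integrals of measures
-/

set_option autoImplicit false

namespace Pool.Agent.H24.MP842

open MeasureTheory Set Filter Real
open scoped ENNReal NNReal Topology

/-- The Poisson kernel. -/
noncomputable def k0 (s y : ℝ) : ℝ := y / (π * (s ^ 2 + y ^ 2))

/-- The derivative of the Poisson kernel in `s`. -/
noncomputable def ks (s y : ℝ) : ℝ := -(2 * s * y) / (π * (s ^ 2 + y ^ 2) ^ 2)

/-- The derivative of the Poisson kernel in `y`. -/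
noncomputable def ky (s y : ℝ) : ℝ := (s ^ 2 - y ^ 2) / (π * (s ^ 2 + y ^ 2) ^ 2)

/-- The second derivative of the Poisson kernel in `s`. -/
noncomputable def kss (s y : ℝ) : ℝ := 2 * y * (3 * s ^ 2 - y ^ 2) / (π * (s ^ 2 + y ^ 2) ^ 3)

lemma k0_pos (s : ℝ) {y : ℝ} (hy : 0 < y) : 0 < k0 s y := by
  unfold k0; positivity

lemma k0_nonneg (s : ℝ) {y : ℝ} (hy : 0 < y) : 0 ≤ k0 s y := (k0_pos s hy).le

lemma hasDerivAt_k0_s (s : ℝ) {y : ℝ} (hy : 0 < y) :
    HasDerivAt (fun s => k0 s y) (ks s y) s := by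
  have hD : π * (s ^ 2 + y ^ 2) ≠ 0 := by positivity
  have h1 : HasDerivAt (fun s : ℝ => π * (s ^ 2 + y ^ 2)) (π * (2 * s)) s := by
    have := ((hasDerivAt_pow 2 s).add_const (y ^ 2)).const_mul π
    simpa using this
  have h2 := (hasDerivAt_const s y).div h1 hD
  refine h2.congr_deriv ?_
  unfold ks
  field_simp
  ring

lemma hasDerivAt_k0_y (s : ℝ) {y : ℝ} (hy : 0 < y) :
    HasDerivAt (fun y => k0 s y) (ky s y) y := by
  have hD : π * (s ^ 2 + y ^ 2) ≠ 0 := by positivity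
  have h1 : HasDerivAt (fun y : ℝ => π * (s ^ 2 + y ^ 2)) (π * (2 * y)) y := by
    have := ((hasDerivAt_pow 2 y).const_add (s ^ 2)).const_mul π
    simpa using this
  have h2 := (hasDerivAt_id' y).div h1 hD
  refine h2.congr_deriv ?_
  unfold ky
  field_simp
  ring

lemma hasDerivAt_ks_s (s : ℝ) {y : ℝ} (hy : 0 < y) :
    HasDerivAt (fun s => ks s y) (kss s y) s := by
  have hD : π * (s ^ 2 + y ^ 2) ^ 2 ≠ 0 := by positivity
  have h1 : HasDerivAt (fun s : ℝ => π * (s ^ 2 + y ^ 2) ^ 2)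
      (π * (2 * (s ^ 2 + y ^ 2) * (2 * s))) s := by
    have := (((hasDerivAt_pow 2 s).add_const (y ^ 2)).pow 2).const_mul π
    simpa using this
  have h0 : HasDerivAt (fun s : ℝ => -(2 * s * y)) (-(2 * y)) s := by
    have := (((hasDerivAt_id' s).const_mul 2).mul_const y).fun_neg
    simpa using this
  have h2 := h0.div h1 hD
  refine h2.congr_deriv ?_
  unfold kss
  field_simp
  ring

lemma hasDerivAt_ky_y (s : ℝ) {y : ℝ} (hy : 0 < y) :
    HasDerivAt (fun y => ky s y) (-kss s y) y := by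
  have hD : π * (s ^ 2 + y ^ 2) ^ 2 ≠ 0 := by positivity
  have h1 : HasDerivAt (fun y : ℝ => π * (s ^ 2 + y ^ 2) ^ 2)
      (π * (2 * (s ^ 2 + y ^ 2) * (2 * y))) y := by
    have := (((hasDerivAt_pow 2 y).const_add (s ^ 2)).pow 2).const_mul π
    simpa using this
  have h0 : HasDerivAt (fun y : ℝ => s ^ 2 - y ^ 2) (-(2 * y)) y := by
    have := (hasDerivAt_pow 2 y).const_sub (s ^ 2)
    simpa using this
  have h2 := h0.div h1 hD
  refine h2.congr_deriv ?_
  unfold kss
  field_simp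
  ring

lemma abs_ks_le (s : ℝ) {y : ℝ} (hy : 0 < y) : |ks s y| ≤ k0 s y / y := by
  unfold ks k0
  have hD : 0 < s ^ 2 + y ^ 2 := by positivity
  rw [abs_div, abs_neg, abs_of_pos (by positivity : 0 < π * (s ^ 2 + y ^ 2) ^ 2),
    div_div, div_le_div_iff₀ (by positivity) (by positivity)]
  have h1 : |2 * s * y| ≤ s ^ 2 + y ^ 2 := by
    rw [abs_le]; constructor <;> nlinarith [sq_nonneg (s - y), sq_nonneg (s + y)]
  calc |2 * s * y| * (π * (s ^ 2 + y ^ 2) * y)
      ≤ (s ^ 2 + y ^ 2) * (π * (s ^ 2 + y ^ 2) * y) := by gcongr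
    _ = y * (π * (s ^ 2 + y ^ 2) ^ 2) := by ring

lemma abs_ky_le (s : ℝ) {y : ℝ} (hy : 0 < y) : |ky s y| ≤ k0 s y / y := by
  unfold ky k0
  have hD : 0 < s ^ 2 + y ^ 2 := by positivity
  rw [abs_div, abs_of_pos (by positivity : 0 < π * (s ^ 2 + y ^ 2) ^ 2),
    div_div, div_le_div_iff₀ (by positivity) (by positivity)]
  have h1 : |s ^ 2 - y ^ 2| ≤ s ^ 2 + y ^ 2 := by
    rw [abs_le]; constructor <;> nlinarith [sq_nonneg s, sq_nonneg y]
  calc |s ^ 2 - y ^ 2| * (π * (s ^ 2 + y ^ 2) * y)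
      ≤ (s ^ 2 + y ^ 2) * (π * (s ^ 2 + y ^ 2) * y) := by gcongr
    _ = y * (π * (s ^ 2 + y ^ 2) ^ 2) := by ring

lemma abs_kss_le (s : ℝ) {y : ℝ} (hy : 0 < y) : |kss s y| ≤ 6 * k0 s y / y ^ 2 := by
  unfold kss k0
  have hD : 0 < s ^ 2 + y ^ 2 := by positivity
  have hDy : y ^ 2 ≤ s ^ 2 + y ^ 2 := by nlinarith [sq_nonneg s]
  have h1 : |3 * s ^ 2 - y ^ 2| ≤ 3 * (s ^ 2 + y ^ 2) := by
    rw [abs_le]; constructor <;> nlinarith [sq_nonneg s, sq_nonneg y]
  rw [abs_div, abs_of_pos (by positivity : 0 < π * (s ^ 2 + y ^ 2) ^ 3), abs_mul,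
    abs_of_pos (by positivity : 0 < 2 * y), mul_div_assoc', div_div,
    div_le_div_iff₀ (by positivity) (by positivity)]
  calc 2 * y * |3 * s ^ 2 - y ^ 2| * (π * (s ^ 2 + y ^ 2) * y ^ 2)
      ≤ 2 * y * (3 * (s ^ 2 + y ^ 2)) * (π * (s ^ 2 + y ^ 2) * (s ^ 2 + y ^ 2)) := by gcongr
    _ = 6 * y * (π * (s ^ 2 + y ^ 2) ^ 3) := by ring

/-- A Harnack inequality for the kernel. -/
lemma k0_le_k0 {s s' y y' : ℝ} (hy : 0 < y) (hs : |s' - s| ≤ y / 2) (h1 : y / 2 ≤ y')
    (h2 : y' ≤ 2 * y) : k0 s' y' ≤ 12 * k0 s y := by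
  have hy' : 0 < y' := by linarith
  unfold k0
  rw [mul_div_assoc', div_le_div_iff₀ (by positivity) (by positivity)]
  have h3 : (s' - s) ^ 2 ≤ (y / 2) ^ 2 := sq_le_sq' (by linarith [(abs_le.1 hs).1]) (abs_le.1 hs).2
  have h4 : s ^ 2 + y ^ 2 ≤ 6 * (s' ^ 2 + y' ^ 2) := by
    have h5 : s ^ 2 ≤ 2 * s' ^ 2 + 2 * (s' - s) ^ 2 := by nlinarith [sq_nonneg (2 * s' - s)]
    have h6 : (y / 2) ^ 2 ≤ y' ^ 2 := by gcongr
    nlinarith [sq_nonneg s']
  calc y' * (π * (s ^ 2 + y ^ 2)) ≤ (2 * y) * (π * (6 * (s' ^ 2 + y' ^ 2))) := by gcongr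
    _ = 12 * y * (π * (s' ^ 2 + y' ^ 2)) := by ring

lemma measurable_k0 : Measurable (fun q : ℝ × ℝ => k0 q.1 q.2) := by
  unfold k0; fun_prop

lemma measurable_ks : Measurable (fun q : ℝ × ℝ => ks q.1 q.2) := by
  unfold ks; fun_prop

lemma measurable_ky : Measurable (fun q : ℝ × ℝ => ky q.1 q.2) := by
  unfold ky; fun_prop

lemma measurable_kss : Measurable (fun q : ℝ × ℝ => kss q.1 q.2) := by
  unfold kss; fun_prop

/-- A measure whose Poisson integrals all converge. -/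
def Good (ν : Measure ℝ) : Prop := ∀ z y : ℝ, 0 < y → Integrable (fun x => k0 (z - x) y) ν

/-- Poisson integral of a measure. -/
noncomputable def pu (ν : Measure ℝ) (z y : ℝ) : ℝ := ∫ x, k0 (z - x) y ∂ν

/-- `z`-derivative of the Poisson integral. -/
noncomputable def puz (ν : Measure ℝ) (z y : ℝ) : ℝ := ∫ x, ks (z - x) y ∂ν

/-- `y`-derivative of the Poisson integral. -/
noncomputable def puy (ν : Measure ℝ) (z y : ℝ) : ℝ := ∫ x, ky (z - x) y ∂ν

/-- second `z`-derivative of the Poisson integral. -/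
noncomputable def puzz (ν : Measure ℝ) (z y : ℝ) : ℝ := ∫ x, kss (z - x) y ∂ν

section

variable {ν : Measure ℝ}

lemma integrable_of_bound (hν : Good ν) {κ : ℝ → ℝ} (hκ : Measurable κ) {c y : ℝ} (hy : 0 < y)
    (hb : ∀ s, |κ s| ≤ c * k0 s y) (z : ℝ) : Integrable (fun x => κ (z - x)) ν := by
  refine Integrable.mono' ((hν z y hy).const_mul c) ?_ ?_
  · exact (hκ.comp (by fun_prop : Measurable fun x : ℝ => z - x)).aestronglyMeasurable
  · exact Eventually.of_forall fun x => by simpa [Real.norm_eq_abs] using hb (z - x)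

lemma abs_integral_le (hν : Good ν) {κ : ℝ → ℝ} {c y : ℝ} (hy : 0 < y)
    (hb : ∀ s, |κ s| ≤ c * k0 s y) (z : ℝ) : |∫ x, κ (z - x) ∂ν| ≤ c * pu ν z y := by
  rw [← Real.norm_eq_abs]
  unfold pu
  rw [← integral_const_mul]
  refine norm_integral_le_of_norm_le ((hν z y hy).const_mul c) ?_
  exact Eventually.of_forall fun x => by simpa [Real.norm_eq_abs] using hb (z - x)

lemma hasDerivAt_z (hν : Good ν) {κ κ' : ℝ → ℝ} (hκ : Measurable κ) (hκ' : Measurable κ')
    {c y : ℝ} (hc : 0 ≤ c) (hy : 0 < y)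
    (hb : ∀ s, |κ s| ≤ c * k0 s y) (hb' : ∀ s, |κ' s| ≤ c * k0 s y)
    (hd : ∀ s, HasDerivAt κ (κ' s) s) (z : ℝ) :
    HasDerivAt (fun z => ∫ x, κ (z - x) ∂ν) (∫ x, κ' (z - x) ∂ν) z := by
  have hs : Metric.ball z (y / 2) ∈ 𝓝 z := Metric.ball_mem_nhds z (by positivity)
  refine (hasDerivAt_integral_of_dominated_loc_of_deriv_le (μ := ν) (𝕜 := ℝ)
    (F := fun z x => κ (z - x)) (F' := fun z x => κ' (z - x))
    (bound := fun x => c * (12 * k0 (z - x) y)) hs ?_ ?_ ?_ ?_ ?_ ?_).2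
  · exact Eventually.of_forall fun z' =>
      (hκ.comp (by fun_prop : Measurable fun x : ℝ => z' - x)).aestronglyMeasurable
  · exact integrable_of_bound hν hκ hy hb z
  · exact (hκ'.comp (by fun_prop : Measurable fun x : ℝ => z - x)).aestronglyMeasurable
  · refine Eventually.of_forall fun x z' hz' => ?_
    rw [Real.norm_eq_abs]
    refine (hb' (z' - x)).trans ?_
    gcongr
    refine k0_le_k0 hy ?_ (by linarith) (by linarith)
    rw [Metric.mem_ball, Real.dist_eq] at hz'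
    have : z' - x - (z - x) = z' - z := by ring
    rw [this]; exact hz'.le
  · exact ((hν z y hy).const_mul 12).const_mul c
  · refine Eventually.of_forall fun x z' _ => ?_
    have h1 : HasDerivAt (fun z : ℝ => z - x) 1 z' := (hasDerivAt_id' z').sub_const x
    have h2 := (hd (z' - x)).comp z' h1
    simpa [Function.comp_def] using h2

lemma hasDerivAt_y (hν : Good ν) {κ κ' : ℝ → ℝ → ℝ}
    (hκ : Measurable (fun q : ℝ × ℝ => κ q.1 q.2)) (hκ' : Measurable (fun q : ℝ × ℝ => κ' q.1 q.2))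
    {y : ℝ} (hy : 0 < y) {c : ℝ} (hc : 0 ≤ c)
    (hb : ∀ s y', y / 2 < y' → y' < 2 * y → |κ s y'| ≤ c * k0 s y')
    (hb' : ∀ s y', y / 2 < y' → y' < 2 * y → |κ' s y'| ≤ c * k0 s y')
    (hd : ∀ s y', 0 < y' → HasDerivAt (fun y => κ s y) (κ' s y') y') (z : ℝ) :
    HasDerivAt (fun y => ∫ x, κ (z - x) y ∂ν) (∫ x, κ' (z - x) y ∂ν) y := by
  have hs : Ioo (y / 2) (2 * y) ∈ 𝓝 y := Ioo_mem_nhds (by linarith) (by linarith)
  refine (hasDerivAt_integral_of_dominated_loc_of_deriv_le (μ := ν) (𝕜 := ℝ)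
    (F := fun y x => κ (z - x) y) (F' := fun y x => κ' (z - x) y)
    (bound := fun x => c * (12 * k0 (z - x) y)) hs ?_ ?_ ?_ ?_ ?_ ?_).2
  · exact Eventually.of_forall fun y' =>
      (hκ.comp (by fun_prop : Measurable fun x : ℝ => ((z - x, y') : ℝ × ℝ))).aestronglyMeasurable
  · exact integrable_of_bound hν
      (hκ.comp (by fun_prop : Measurable fun s : ℝ => ((s, y) : ℝ × ℝ))) hy
      (fun s => hb s y (by linarith) (by linarith)) z
  · exact (hκ'.comp (by fun_prop : Measurable fun x : ℝ => ((z - x, y) : ℝ × ℝ))).aestronglyMeasurable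
  · refine Eventually.of_forall fun x y' hy' => ?_
    rw [Real.norm_eq_abs]
    refine (hb' (z - x) y' hy'.1 hy'.2).trans ?_
    gcongr
    refine k0_le_k0 hy ?_ hy'.1.le hy'.2.le
    simp; positivity
  · exact ((hν z y hy).const_mul 12).const_mul c
  · refine Eventually.of_forall fun x y' hy' => ?_
    have : 0 < y' := by linarith [hy'.1]
    exact hd (z - x) y' this

lemma hasDerivAt_pu_z (hν : Good ν) (z : ℝ) {y : ℝ} (hy : 0 < y) :
    HasDerivAt (fun z => pu ν z y) (puz ν z y) z := by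
  unfold pu puz
  have hm := measurable_k0.comp (by fun_prop : Measurable fun s : ℝ => ((s, y) : ℝ × ℝ))
  have hm' := measurable_ks.comp (by fun_prop : Measurable fun s : ℝ => ((s, y) : ℝ × ℝ))
  refine hasDerivAt_z (c := 1 + 1 / y) hν hm hm' (by positivity) hy ?_ ?_
    (fun s => hasDerivAt_k0_s s hy) z
  · intro s
    simp only [Function.comp]
    rw [abs_of_pos (k0_pos s hy)]
    have := k0_pos s hy
    have h2 : 0 < 1 / y := by positivity
    nlinarith
  · intro s
    simp only [Function.comp]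
    refine (abs_ks_le s hy).trans ?_
    have := k0_pos s hy
    have h2 : 0 < 1 / y := by positivity
    rw [div_eq_mul_one_div]
    nlinarith

lemma hasDerivAt_puz_z (hν : Good ν) (z : ℝ) {y : ℝ} (hy : 0 < y) :
    HasDerivAt (fun z => puz ν z y) (puzz ν z y) z := by
  unfold puz puzz
  have hm := measurable_ks.comp (by fun_prop : Measurable fun s : ℝ => ((s, y) : ℝ × ℝ))
  have hm' := measurable_kss.comp (by fun_prop : Measurable fun s : ℝ => ((s, y) : ℝ × ℝ))
  refine hasDerivAt_z (c := 1 / y + 6 / y ^ 2) hν hm hm' (by positivity) hy ?_ ?_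
    (fun s => hasDerivAt_ks_s s hy) z
  · intro s
    simp only [Function.comp]
    refine (abs_ks_le s hy).trans ?_
    have := k0_pos s hy
    have h2 : 0 < 6 / y ^ 2 := by positivity
    rw [div_eq_mul_one_div]
    nlinarith
  · intro s
    simp only [Function.comp]
    refine (abs_kss_le s hy).trans ?_
    have := k0_pos s hy
    have h2 : 0 < 1 / y := by positivity
    have h3 : 6 * k0 s y / y ^ 2 = 6 / y ^ 2 * k0 s y := by ring
    rw [h3]
    nlinarith

lemma hasDerivAt_pu_y (hν : Good ν) (z : ℝ) {y : ℝ} (hy : 0 < y) :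
    HasDerivAt (fun y => pu ν z y) (puy ν z y) y := by
  unfold pu puy
  refine hasDerivAt_y (c := 1 + 2 / y) hν measurable_k0 measurable_ky hy (by positivity) ?_ ?_
    (fun s y' hy' => hasDerivAt_k0_y s hy') z
  · intro s y' h1 h2
    have hy' : 0 < y' := by linarith
    rw [abs_of_pos (k0_pos s hy')]
    have := k0_pos s hy'
    have h2 : 0 < 2 / y := by positivity
    nlinarith
  · intro s y' h1 h2
    have hy' : 0 < y' := by linarith
    refine (abs_ky_le s hy').trans ?_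
    have h0 := k0_pos s hy'
    have h3 : 1 / y' ≤ 2 / y := by
      rw [div_le_div_iff₀ hy' hy]; linarith
    rw [div_eq_mul_one_div]
    nlinarith

lemma hasDerivAt_puy_y (hν : Good ν) (z : ℝ) {y : ℝ} (hy : 0 < y) :
    HasDerivAt (fun y => puy ν z y) (-puzz ν z y) y := by
  unfold puy puzz
  rw [← integral_neg]
  refine hasDerivAt_y (κ' := fun s y => -kss s y) (c := 2 / y + 24 / y ^ 2) hν measurable_ky
    measurable_kss.neg hy (by positivity) ?_ ?_
    (fun s y' hy' => hasDerivAt_ky_y s hy') z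
  · intro s y' h1 h2
    have hy' : 0 < y' := by linarith
    refine (abs_ky_le s hy').trans ?_
    have h0 := k0_pos s hy'
    have h3 : 1 / y' ≤ 2 / y := by
      rw [div_le_div_iff₀ hy' hy]; linarith
    have h4 : 0 < 24 / y ^ 2 := by positivity
    rw [div_eq_mul_one_div]
    nlinarith
  · intro s y' h1 h2
    have hy' : 0 < y' := by linarith
    rw [abs_neg]
    refine (abs_kss_le s hy').trans ?_
    have h0 := k0_pos s hy'
    have h3 : 6 / y' ^ 2 ≤ 24 / y ^ 2 := by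
      rw [div_le_div_iff₀ (by positivity) (by positivity)]
      nlinarith
    have h4 : 0 < 2 / y := by positivity
    have h5 : 6 * k0 s y' / y' ^ 2 = 6 / y' ^ 2 * k0 s y' := by ring
    rw [h5]
    nlinarith

lemma pu_nonneg (ν : Measure ℝ) (z : ℝ) {y : ℝ} (hy : 0 < y) : 0 ≤ pu ν z y :=
  integral_nonneg fun x => k0_nonneg (z - x) hy

lemma pu_pos (hν : Good ν) (h0 : ν ≠ 0) (z : ℝ) {y : ℝ} (hy : 0 < y) : 0 < pu ν z y := by
  unfold pu
  rw [integral_pos_iff_support_of_nonneg (fun x => k0_nonneg (z - x) hy) (hν z y hy)]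
  have : Function.support (fun x => k0 (z - x) y) = univ := by
    ext x; simp [(k0_pos (z - x) hy).ne']
  rw [this]
  exact Measure.measure_univ_pos.2 h0

lemma abs_puz_le (hν : Good ν) (z : ℝ) {y : ℝ} (hy : 0 < y) : |puz ν z y| ≤ pu ν z y / y := by
  have := abs_integral_le (κ := fun s => ks s y) (c := 1 / y) hν hy (fun s => by
    have := abs_ks_le s hy
    rw [div_eq_mul_one_div, mul_comm] at this
    exact this) z
  unfold puz
  rw [div_eq_mul_one_div, mul_comm]
  exact this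

lemma abs_puy_le (hν : Good ν) (z : ℝ) {y : ℝ} (hy : 0 < y) : |puy ν z y| ≤ pu ν z y / y := by
  have := abs_integral_le (κ := fun s => ky s y) (c := 1 / y) hν hy (fun s => by
    have := abs_ky_le s hy
    rw [div_eq_mul_one_div, mul_comm] at this
    exact this) z
  unfold puy
  rw [div_eq_mul_one_div, mul_comm]
  exact this

lemma abs_puzz_le (hν : Good ν) (z : ℝ) {y : ℝ} (hy : 0 < y) :
    |puzz ν z y| ≤ 6 * pu ν z y / y ^ 2 := by
  have := abs_integral_le (κ := fun s => kss s y) (c := 6 / y ^ 2) hν hy (fun s => by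
    have := abs_kss_le s hy
    have h : 6 * k0 s y / y ^ 2 = 6 / y ^ 2 * k0 s y := by ring
    rwa [h] at this) z
  unfold puzz
  have h : 6 * pu ν z y / y ^ 2 = 6 / y ^ 2 * pu ν z y := by ring
  rw [h]
  exact this

/-- Harnack inequality for Poisson integrals in the vertical direction. -/
lemma pu_le_pu (hν : Good ν) (z : ℝ) {y y' : ℝ} (hy : 0 < y) (h1 : y / 2 ≤ y') (h2 : y' ≤ 2 * y) :
    pu ν z y' ≤ 12 * pu ν z y := by
  have hy' : 0 < y' := by linarith
  unfold pu
  rw [← integral_const_mul]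
  refine integral_mono (hν z y' hy') ((hν z y hy).const_mul 12) fun x => ?_
  refine k0_le_k0 hy ?_ h1 h2
  simp; positivity

end

section meas

variable {ν : Measure ℝ} [SFinite ν]

lemma measurable_par {κ : ℝ → ℝ → ℝ} (hκ : Measurable (fun q : ℝ × ℝ => κ q.1 q.2)) :
    Measurable (fun q : ℝ × ℝ => ∫ x, κ (q.1 - x) q.2 ∂ν) := by
  have h : Measurable (fun r : (ℝ × ℝ) × ℝ => κ (r.1.1 - r.2) r.1.2) :=
    hκ.comp (by fun_prop : Measurable fun r : (ℝ × ℝ) × ℝ => ((r.1.1 - r.2, r.1.2) : ℝ × ℝ))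
  exact (h.stronglyMeasurable.integral_prod_right (ν := ν)).measurable

lemma measurable_pu : Measurable (fun q : ℝ × ℝ => pu ν q.1 q.2) := measurable_par measurable_k0

lemma measurable_puz : Measurable (fun q : ℝ × ℝ => puz ν q.1 q.2) := measurable_par measurable_ks

lemma measurable_puy : Measurable (fun q : ℝ × ℝ => puy ν q.1 q.2) := measurable_par measurable_ky

lemma measurable_puzz : Measurable (fun q : ℝ × ℝ => puzz ν q.1 q.2) :=
  measurable_par measurable_kss

end meas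

end Pool.Agent.H24.MP842
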