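import Pool.Agent.H24.MP842.Square

/-!
# Necessity of `A_p` and `B_{λp/2}`
-/

set_option autoImplicit false

namespace Pool.Agent.H24.MP842

open MeasureTheory Set Filter
open scoped ENNReal NNReal Topology

section lower

variable {f : ℝ → ℝ} {a b M : ℝ}

lemma good_bdd (hf : Measurable f) (hb : ∀ x, f x ≤ M) : Good (nuP f) := by
  refine good_wd hf.ennreal_ofReal fun z y hy => ?_
  have : PL (fun x => ENNReal.ofReal (f x)) z y ≤ ∫⁻ x, ENNReal.ofReal (k0 (z - x) y) *
      ENNReal.ofReal M := by
    unfold PL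
    refine lintegral_mono fun x => ?_
    gcongr
    exact ENNReal.ofReal_le_ofReal (hb x)
  refine ne_top_of_le_ne_top ?_ this
  rw [lintegral_mul_const' _ _ ENNReal.ofReal_ne_top, lintegral_k0_left z hy, one_mul]
  exact ENNReal.ofReal_ne_top

lemma nuP_neg_zero (h0 : ∀ x, 0 ≤ f x) : nuP (fun x => -f x) = 0 := by
  unfold nuP
  have : (fun x => ENNReal.ofReal (-f x)) = 0 := by
    funext x
    simp [h0 x]
  rw [this, withDensity_zero]

lemma good_zero : Good (0 : Measure ℝ) := fun _ _ _ => integrable_zero_measure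

lemma le_gradSq (hf : Measurable f) (h0 : ∀ x, 0 ≤ f x) (hb : ∀ x, f x ≤ M) (z : ℝ) {y : ℝ}
    (hy : 0 < y) : (puz (nuP f) z y) ^ 2 ≤ gradSq f z y := by
  have g1 := good_bdd hf hb
  have g2 : Good (nuP fun x => -f x) := by rw [nuP_neg_zero h0]; exact good_zero
  rw [gradSq_eq hf g1 g2 z hy, nuP_neg_zero h0]
  have : puz 0 z y = 0 := by unfold puz; simp
  rw [this, sub_zero]
  nlinarith [sq_nonneg (puy (nuP f) z y - puy 0 z y)]

/-- The lower bound for the derivative of the Poisson integral. -/
lemma puz_lower (hf : Measurable f) (hb : ∀ x, f x ≤ M) (hab : a < b)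
    (hs : ∀ x, x ∉ Icc a b → f x = 0) {z y : ℝ} (hz : z ∈ Icc (b + (b - a)) (b + 2 * (b - a)))
    (hy : y ∈ Icc (b - a) (2 * (b - a))) :
    2 / (169 * Real.pi * (b - a) ^ 2) * (nuP f).real univ ≤ -puz (nuP f) z y := by
  have hL : 0 < b - a := sub_pos.2 hab
  have hy0 : 0 < y := hL.trans_le hy.1
  have hg := good_bdd hf hb
  have hfin : (nuP f) univ ≠ ∞ := by
    unfold nuP
    rw [withDensity_apply _ MeasurableSet.univ, Measure.restrict_univ]
    have h1 : ∀ x, ENNReal.ofReal (f x) ≤ (Icc a b).indicator (fun _ => ENNReal.ofReal M) x := by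
      intro x
      by_cases hx : x ∈ Icc a b
      · rw [indicator_of_mem hx]
        exact ENNReal.ofReal_le_ofReal (hb x)
      · rw [indicator_of_notMem hx, hs x hx]; simp
    refine ne_top_of_le_ne_top ?_ (lintegral_mono h1)
    rw [lintegral_indicator measurableSet_Icc, lintegral_const, Measure.restrict_apply_univ,
      Real.volume_Icc]
    exact ENNReal.mul_ne_top ENNReal.ofReal_ne_top ENNReal.ofReal_ne_top
  have hfm : IsFiniteMeasure (nuP f) := ⟨hfin.lt_top⟩
  have hae : ∀ᵐ x ∂(nuP f), x ∈ Icc a b := by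
    unfold nuP
    rw [ae_withDensity_iff hf.ennreal_ofReal]
    refine Eventually.of_forall fun x hx => ?_
    by_contra hcon
    rw [hs x hcon] at hx
    simp at hx
  have e : 2 / (169 * Real.pi * (b - a) ^ 2) * (nuP f).real univ =
      ∫ _x, 2 / (169 * Real.pi * (b - a) ^ 2) ∂(nuP f) := by
    rw [integral_const, smul_eq_mul, mul_comm]
  unfold puz
  rw [← integral_neg, e]
  refine integral_mono_ae (integrable_const _) ?_ ?_
  · exact (integrable_of_bound hg (measurable_ks.comp
      (by fun_prop : Measurable fun s : ℝ => ((s, y) : ℝ × ℝ))) (c := 1 / y) hy0 (fun s => by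
        have := abs_ks_le s hy0
        rw [div_eq_mul_one_div, mul_comm] at this
        exact this) z).neg
  · filter_upwards [hae] with x hx
    unfold ks
    have h1 : b - a ≤ z - x := by linarith [hz.1, hx.2]
    have h2 : z - x ≤ 3 * (b - a) := by linarith [hz.2, hx.1]
    rw [neg_div, neg_neg, div_le_div_iff₀ (by positivity) (by positivity)]
    have h3 : (z - x) ^ 2 + y ^ 2 ≤ 13 * (b - a) ^ 2 := by
      have e1 : (z - x) ^ 2 ≤ (3 * (b - a)) ^ 2 := by
        apply pow_le_pow_left₀ (by linarith) h2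
      have e2 : y ^ 2 ≤ (2 * (b - a)) ^ 2 := by
        apply pow_le_pow_left₀ hy0.le hy.2
      nlinarith
    have h4 : (b - a) * (b - a) ≤ (z - x) * y := by
      apply mul_le_mul h1 hy.1 hL.le (by linarith)
    have hzx : 0 < z - x := by linarith
    calc 2 * (Real.pi * ((z - x) ^ 2 + y ^ 2) ^ 2)
        ≤ 2 * (Real.pi * (13 * (b - a) ^ 2) ^ 2) := by
          gcongr
      _ = 2 * ((b - a) * (b - a)) * (169 * Real.pi * (b - a) ^ 2) := by ring
      _ ≤ 2 * ((z - x) * y) * (169 * Real.pi * (b - a) ^ 2) := by gcongr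
      _ = 2 * (z - x) * y * (169 * Real.pi * (b - a) ^ 2) := by ring

/-- The constant in the lower bound for `g_λ^*`. -/
noncomputable def c1 (lam : ℝ) : ℝ := (2 / 7 : ℝ) ^ lam * (2 / (169 * Real.pi)) ^ 2

lemma c1_pos (lam : ℝ) : 0 < c1 lam := by unfold c1; positivity

/-- `L / (|x - c| + L)` for the interval `[a, b]` with centre `c` and length `L`. -/
noncomputable def tail (a b x : ℝ) : ℝ := (b - a) / (|x - (a + b) / 2| + (b - a))

lemma tail_pos (hab : a < b) (x : ℝ) : 0 < tail a b x := by
  have hL : 0 < b - a := sub_pos.2 hab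
  unfold tail
  positivity

lemma gStar_lower {lam : ℝ} (hlam : 0 < lam) (hf : Measurable f) (h0 : ∀ x, 0 ≤ f x)
    (hb : ∀ x, f x ≤ M) (hab : a < b) (hs : ∀ x, x ∉ Icc a b → f x = 0) (x : ℝ) :
    ENNReal.ofReal (c1 lam * (tail a b x) ^ lam * ((nuP f).real univ / (b - a)) ^ 2) ≤
      ∫⁻ z, ∫⁻ y in Ioi (0 : ℝ), ENNReal.ofReal ((y / (|x - z| + y)) ^ lam * gradSq f z y) := by
  have hL : 0 < b - a := sub_pos.2 hab
  have hT := tail_pos hab x
  set m := (nuP f).real univ with hm
  have hm0 : 0 ≤ m := measureReal_nonneg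
  set K : ℝ := (2 / 7 * tail a b x) ^ lam * (2 / (169 * Real.pi * (b - a) ^ 2) * m) ^ 2 with hK
  have hpt : ∀ z ∈ Icc (b + (b - a)) (b + 2 * (b - a)), ∀ y ∈ Icc (b - a) (2 * (b - a)),
      K ≤ (y / (|x - z| + y)) ^ lam * gradSq f z y := by
    intro z hz y hy
    have hy0 : 0 < y := hL.trans_le hy.1
    have h1 : 2 / 7 * tail a b x ≤ y / (|x - z| + y) := by
      unfold tail
      rw [← mul_div_assoc, div_le_div_iff₀ (by positivity) (by positivity)]
      have e1 : |x - z| ≤ |x - (a + b) / 2| + 5 / 2 * (b - a) := by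
        have : x - z = (x - (a + b) / 2) - (z - (a + b) / 2) := by ring
        rw [this]
        refine (abs_sub _ _).trans ?_
        gcongr
        rw [abs_le]
        constructor <;> linarith [hz.1, hz.2]
      have e2 : 0 ≤ |x - (a + b) / 2| := abs_nonneg _
      set t := |x - (a + b) / 2|
      set L := b - a
      have e3 : L ≤ y := hy.1
      have e4 : 0 ≤ t * (y - L) := mul_nonneg e2 (by linarith)
      have e5 : 0 ≤ L * (y - L) := mul_nonneg hL.le (by linarith)
      nlinarith
    have h2 : (2 / (169 * Real.pi * (b - a) ^ 2) * m) ^ 2 ≤ gradSq f z y := by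
      refine le_trans ?_ (le_gradSq hf h0 hb z hy0)
      have h3 := puz_lower hf hb hab hs hz hy
      have h4 : 0 ≤ 2 / (169 * Real.pi * (b - a) ^ 2) * m := by positivity
      calc (2 / (169 * Real.pi * (b - a) ^ 2) * m) ^ 2 ≤ (-puz (nuP f) z y) ^ 2 := by
            gcongr
        _ = (puz (nuP f) z y) ^ 2 := by ring
    rw [hK]
    gcongr
  have hKe : c1 lam * (tail a b x) ^ lam * (m / (b - a)) ^ 2 = K * (b - a) * (b - a) := by
    rw [hK, c1, Real.mul_rpow (by norm_num) hT.le]
    field_simp
  rw [hKe]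
  have hK0 : 0 ≤ K := by rw [hK]; positivity
  calc ENNReal.ofReal (K * (b - a) * (b - a))
      = ∫⁻ _z in Icc (b + (b - a)) (b + 2 * (b - a)), ∫⁻ _y in Icc (b - a) (2 * (b - a)),
          ENNReal.ofReal K := by
        rw [lintegral_const, lintegral_const, Measure.restrict_apply_univ,
          Measure.restrict_apply_univ, Real.volume_Icc, Real.volume_Icc,
          ← ENNReal.ofReal_mul hK0, ← ENNReal.ofReal_mul]
        · congr 1
          ring
        · have : 2 * (b - a) - (b - a) = b - a := by ring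
          rw [this]
          positivity
    _ ≤ ∫⁻ z in Icc (b + (b - a)) (b + 2 * (b - a)), ∫⁻ y in Ioi (0 : ℝ),
          ENNReal.ofReal ((y / (|x - z| + y)) ^ lam * gradSq f z y) := by
        refine setLIntegral_mono' measurableSet_Icc fun z hz => ?_
        refine (setLIntegral_mono' measurableSet_Icc fun y hy =>
          ENNReal.ofReal_le_ofReal (hpt z hz y hy)).trans ?_
        exact lintegral_mono_set fun y hy => hL.trans_le hy.1
    _ ≤ _ := setLIntegral_le_lintegral _ _

end lower

section nec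

variable {lam p : ℝ} {U : ℝ → ℝ} {C : ℝ≥0}

/-- The inequality restricted to bounded Borel functions with bounded support. -/
def StarB (lam p : ℝ) (U : ℝ → ℝ) (C : ℝ≥0) : Prop :=
  ∀ f : ℝ → ℝ, Measurable f → (∃ M : ℝ, ∀ x, |f x| ≤ M) →
    (∃ a b : ℝ, ∀ x, x ∉ Icc a b → f x = 0) →
    ∫⁻ x, gStar lam f x ^ p * ENNReal.ofReal (U x) ≤
      C * ∫⁻ x, ENNReal.ofReal (|f x| ^ p * U x)

/-- The main test inequality. -/
lemma test (hlam : 0 < lam) (hp : 0 < p) (hC : StarB lam p U C)
    {f : ℝ → ℝ} {a b M : ℝ} (hf : Measurable f) (h0 : ∀ x, 0 ≤ f x)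
    (hb : ∀ x, f x ≤ M) (hab : a < b) (hs : ∀ x, x ∉ Icc a b → f x = 0) :
    ENNReal.ofReal (c1 lam ^ (p / 2) * ((nuP f).real univ / (b - a)) ^ p) *
      ∫⁻ x, ENNReal.ofReal ((tail a b x) ^ (lam * p / 2) * U x) ≤
      C * ∫⁻ x, ENNReal.ofReal (|f x| ^ p * U x) := by
  refine le_trans ?_ (hC f hf ⟨M, fun x => by rw [abs_of_nonneg (h0 x)]; exact hb x⟩ ⟨a, b, hs⟩)
  rw [← lintegral_const_mul' _ _ ENNReal.ofReal_ne_top]
  refine lintegral_mono fun x => ?_
  have hT := tail_pos hab x
  have hL : 0 < b - a := sub_pos.2 hab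
  set m := (nuP f).real univ with hm
  have hm0 : 0 ≤ m := measureReal_nonneg
  have h1 := gStar_lower hlam hf h0 hb hab hs x
  have hc := c1_pos lam
  rw [ENNReal.ofReal_mul (by positivity : 0 ≤ (tail a b x) ^ (lam * p / 2)), ← mul_assoc]
  gcongr
  unfold gStar
  rw [← ENNReal.rpow_mul]
  calc ENNReal.ofReal (c1 lam ^ (p / 2) * (m / (b - a)) ^ p) *
        ENNReal.ofReal ((tail a b x) ^ (lam * p / 2))
      = ENNReal.ofReal (c1 lam * (tail a b x) ^ lam * (m / (b - a)) ^ 2) ^ (1 / 2 * p) := by
        rw [← ENNReal.ofReal_mul (by positivity), ENNReal.ofReal_rpow_of_nonneg (by positivity)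
          (by positivity), Real.mul_rpow (by positivity) (by positivity),
          Real.mul_rpow (by positivity) (by positivity), ← Real.rpow_mul hT.le,
          ← Real.rpow_natCast (m / (b - a)) 2, ← Real.rpow_mul (by positivity)]
        congr 1
        have e1 : (1 : ℝ) / 2 * p = p / 2 := by ring
        have e2 : lam * (1 / 2 * p) = lam * p / 2 := by ring
        have e3 : ((2 : ℕ) : ℝ) * (1 / 2 * p) = p := by push_cast; ring
        rw [e2, e3, e1]
        ring
    _ ≤ _ := by gcongr

lemma memB_of_star (hlam : 1 < lam) (hp : 0 < p) (hU : IsWeight U)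
    (hC : StarB lam p U C) : MemB (lam * p / 2) U := by
  have hr : 0 < lam * p / 2 := by positivity
  set r := lam * p / 2 with hrd
  have hc := c1_pos lam
  refine ⟨Real.toNNReal (2 ^ r * (C / (c1 lam ^ (p / 2)))), fun a b hab => ?_⟩
  rw [Real.coe_toNNReal _ (by positivity)]
  have hL : 0 < b - a := sub_pos.2 hab
  set f : ℝ → ℝ := (Icc a b).indicator (fun _ => 1) with hf
  have hfm : Measurable f := measurable_const.indicator measurableSet_Icc
  have hfU : ∫⁻ x, ENNReal.ofReal (|f x| ^ p * U x) = ∫⁻ x in Icc a b, ENNReal.ofReal (U x) := by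
    rw [← lintegral_indicator measurableSet_Icc]
    refine lintegral_congr fun x => ?_
    by_cases hx : x ∈ Icc a b
    · rw [indicator_of_mem hx, hf, indicator_of_mem hx]; simp
    · rw [indicator_of_notMem hx, hf, indicator_of_notMem hx]
      simp [Real.zero_rpow hp.ne']
  have ht := test (by linarith) hp hC (M := 1) hfm
    (fun x => by rw [hf]; exact indicator_nonneg (fun _ _ => zero_le_one) x)
    (fun x => by rw [hf]; exact indicator_le_self' (fun _ _ => zero_le_one) x)
    hab (fun x hx => by rw [hf, indicator_of_notMem hx])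
  have hmass : (nuP f).real univ / (b - a) = 1 := by
    have : (nuP f) univ = ENNReal.ofReal (b - a) := by
      unfold nuP
      rw [withDensity_apply _ MeasurableSet.univ, Measure.restrict_univ]
      have e : ∀ x, ENNReal.ofReal (f x) = (Icc a b).indicator (fun _ => (1 : ℝ≥0∞)) x := by
        intro x
        by_cases hx : x ∈ Icc a b
        · rw [indicator_of_mem hx, hf, indicator_of_mem hx]; simp
        · rw [indicator_of_notMem hx, hf, indicator_of_notMem hx]; simp
      simp_rw [e]
      rw [lintegral_indicator measurableSet_Icc, lintegral_const, one_mul,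
        Measure.restrict_apply_univ, Real.volume_Icc]
    rw [Measure.real, this, ENNReal.toReal_ofReal hL.le, div_self hL.ne']
  rw [hmass, Real.one_rpow, mul_one, hfU] at ht
  -- divide by the constant
  have hc2 : 0 < c1 lam ^ (p / 2) := by positivity
  have ht2 : ∫⁻ x, ENNReal.ofReal ((tail a b x) ^ r * U x) ≤
      ENNReal.ofReal (C / (c1 lam ^ (p / 2))) * ∫⁻ x in Icc a b, ENNReal.ofReal (U x) := by
    rw [ENNReal.mul_le_iff_le_inv (by simpa using hc2) ENNReal.ofReal_ne_top] at ht
    have e : ENNReal.ofReal (C / (c1 lam ^ (p / 2))) =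
        (ENNReal.ofReal (c1 lam ^ (p / 2)))⁻¹ * C := by
      rw [div_eq_mul_inv, mul_comm, ENNReal.ofReal_mul (by positivity),
        ENNReal.ofReal_inv_of_pos hc2, ENNReal.ofReal_coe_nnreal]
    rw [e, mul_assoc]
    exact ht
  have hpt : ∀ x, ENNReal.ofReal ((b - a) ^ (r - 1) * U x /
      ((b - a) ^ r + |x - (a + b) / 2| ^ r)) ≤
      ENNReal.ofReal (2 ^ r / (b - a)) * ENNReal.ofReal ((tail a b x) ^ r * U x) := by
    intro x
    have hUx := hU.1 x
    rw [← ENNReal.ofReal_mul (by positivity)]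
    apply ENNReal.ofReal_le_ofReal
    unfold tail
    set t := |x - (a + b) / 2| with ht0
    have htn : 0 ≤ t := abs_nonneg _
    set L := b - a
    have h1 : (t + L) ^ r ≤ 2 ^ r * (L ^ r + t ^ r) := by
      rcases le_total t L with h | h
      · calc (t + L) ^ r ≤ (2 * L) ^ r := by
              apply Real.rpow_le_rpow (by positivity) (by linarith) hr.le
          _ = 2 ^ r * L ^ r := Real.mul_rpow (by norm_num) hL.le
          _ ≤ 2 ^ r * (L ^ r + t ^ r) := by
              gcongr
              have : 0 ≤ t ^ r := by positivity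
              linarith
      · calc (t + L) ^ r ≤ (2 * t) ^ r := by
              apply Real.rpow_le_rpow (by positivity) (by linarith) hr.le
          _ = 2 ^ r * t ^ r := Real.mul_rpow (by norm_num) htn
          _ ≤ 2 ^ r * (L ^ r + t ^ r) := by
              gcongr
              have : 0 ≤ L ^ r := by positivity
              linarith
    rw [Real.rpow_sub_one hL.ne', Real.div_rpow hL.le (by positivity)]
    have hLr : 0 < L ^ r := by positivity
    have htr : 0 ≤ t ^ r := by positivity
    have htL : 0 < (t + L) ^ r := by positivity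
    have e1 : 2 ^ r / L * (L ^ r / (t + L) ^ r * U x) = (2 ^ r * L ^ r * U x) / (L * (t + L) ^ r) := by
      field_simp
    have e2 : L ^ r / L * U x / (L ^ r + t ^ r) = (L ^ r * U x) / (L * (L ^ r + t ^ r)) := by
      field_simp
    rw [e1, e2, div_le_div_iff₀ (by positivity) (by positivity)]
    calc L ^ r * U x * (L * (t + L) ^ r) ≤ L ^ r * U x * (L * (2 ^ r * (L ^ r + t ^ r))) := by
          gcongr
      _ = 2 ^ r * L ^ r * U x * (L * (L ^ r + t ^ r)) := by ring
  calc ∫⁻ x, ENNReal.ofReal ((b - a) ^ (r - 1) * U x /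
      ((b - a) ^ r + |x - (a + b) / 2| ^ r))
      ≤ ∫⁻ x, ENNReal.ofReal (2 ^ r / (b - a)) * ENNReal.ofReal ((tail a b x) ^ r * U x) :=
        lintegral_mono hpt
    _ = ENNReal.ofReal (2 ^ r / (b - a)) * ∫⁻ x, ENNReal.ofReal ((tail a b x) ^ r * U x) :=
        lintegral_const_mul' _ _ ENNReal.ofReal_ne_top
    _ ≤ ENNReal.ofReal (2 ^ r / (b - a)) * (ENNReal.ofReal (C / (c1 lam ^ (p / 2))) *
          ∫⁻ x in Icc a b, ENNReal.ofReal (U x)) := by gcongr
    _ = ENNReal.ofReal (2 ^ r * (C / (c1 lam ^ (p / 2))) / (b - a)) *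
          ∫⁻ x in Icc a b, ENNReal.ofReal (U x) := by
        rw [← mul_assoc, ← ENNReal.ofReal_mul (by positivity)]
        congr 2
        ring

lemma memA_of_star (hlam : 1 < lam) (hp : 1 < p) (hU : IsWeight U)
    (hC : StarB lam p U C) : MemA p U := by
  have hp0 : 0 < p := by linarith
  have hr : 0 < lam * p / 2 := by positivity
  set r := lam * p / 2 with hrd
  have hc := c1_pos lam
  have hc2 : 0 < c1 lam ^ (p / 2) := by positivity
  set κ : ℝ := c1 lam ^ (p / 2) * (2 / 3) ^ r with hκ
  have hκ0 : 0 < κ := by positivity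
  have hs0 : 0 < 1 / (p - 1) := by
    have : 0 < p - 1 := by linarith
    positivity
  set e : ℝ := -1 / (p - 1) with he
  have he0 : e < 0 := by rw [he, neg_div]; linarith
  refine ⟨Real.toNNReal (C / κ), fun a b hab => ?_⟩
  have hL : 0 < b - a := sub_pos.2 hab
  -- a Borel version of `U`
  obtain ⟨g, hg, hg0, hgU⟩ : ∃ g : ℝ → ℝ, Measurable g ∧ (∀ x, 0 ≤ g x) ∧ U =ᵐ[volume] g := by
    obtain ⟨g, hg, hgU⟩ : AEMeasurable U volume := hU.2.aestronglyMeasurable.aemeasurable
    refine ⟨fun x => max (g x) 0, hg.max measurable_const, fun x => le_max_right _ _, ?_⟩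
    filter_upwards [hgU] with x hx
    rw [← hx, max_eq_left (hU.1 x)]
  set UI := ∫⁻ x in Icc a b, ENNReal.ofReal (U x) with hUI
  have hUIfin : UI ≠ ∞ := by
    have h1 : IntegrableOn U (Icc a b) volume := hU.2.integrableOn_isCompact isCompact_Icc
    rw [hUI, ← ofReal_integral_eq_lintegral_ofReal h1 (Eventually.of_forall hU.1)]
    exact ENNReal.ofReal_ne_top
  set Fn : ℕ → ℝ → ℝ≥0∞ := fun n x => (ENNReal.ofReal (g x + 1 / ((n : ℝ) + 1))) ^ e with hFn
  set S : ℕ → ℝ≥0∞ := fun n => ∫⁻ x in Icc a b, Fn n x with hS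
  have key : ∀ n, (UI / ENNReal.ofReal (b - a)) * (S n / ENNReal.ofReal (b - a)) ^ (p - 1) ≤
      ENNReal.ofReal (C / κ) := by
    intro n
    set ε : ℝ := 1 / ((n : ℝ) + 1) with hε
    have hε0 : 0 < ε := by positivity
    have hgε : ∀ x, 0 < g x + ε := fun x => by linarith [hg0 x]
    set f : ℝ → ℝ := (Icc a b).indicator (fun x => (g x + ε) ^ e) with hf
    have hfm : Measurable f := by
      refine Measurable.indicator ?_ measurableSet_Icc
      exact (hg.add_const ε).pow_const e
    have hf0 : ∀ x, 0 ≤ f x := fun x => by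
      rw [hf]; exact indicator_nonneg (fun x _ => (Real.rpow_pos_of_pos (hgε x) e).le) x
    have hfM : ∀ x, f x ≤ ε ^ e := by
      intro x
      by_cases hx : x ∈ Icc a b
      · rw [hf, indicator_of_mem hx]
        exact Real.rpow_le_rpow_of_nonpos hε0 (by linarith [hg0 x]) he0.le
      · rw [hf, indicator_of_notMem hx]; positivity
    have hofF : ∀ x, ENNReal.ofReal (f x) = (Icc a b).indicator (Fn n) x := by
      intro x
      by_cases hx : x ∈ Icc a b
      · rw [hf, indicator_of_mem hx, indicator_of_mem hx, hFn]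
        simp only
        rw [ENNReal.ofReal_rpow_of_pos (hgε x)]
      · rw [hf, indicator_of_notMem hx, indicator_of_notMem hx]; simp
    have hmass : (nuP f) univ = S n := by
      unfold nuP
      rw [withDensity_apply _ MeasurableSet.univ, Measure.restrict_univ]
      simp_rw [hofF]
      rw [lintegral_indicator measurableSet_Icc]
    have hSfin : S n ≠ ∞ := by
      have h1 : ∀ x ∈ Icc a b, Fn n x ≤ ENNReal.ofReal (ε ^ e) := by
        intro x hx
        have h2 := hofF x
        rw [indicator_of_mem hx] at h2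
        rw [← h2]
        exact ENNReal.ofReal_le_ofReal (hfM x)
      refine ne_top_of_le_ne_top ?_ (setLIntegral_mono' measurableSet_Icc h1)
      rw [lintegral_const, Measure.restrict_apply_univ, Real.volume_Icc]
      exact ENNReal.mul_ne_top ENNReal.ofReal_ne_top ENNReal.ofReal_ne_top
    have hS0 : S n ≠ 0 := by
      intro h0
      have hm : Measurable (Fn n) := by rw [hFn]; fun_prop
      rw [hS] at h0
      simp only at h0
      rw [lintegral_eq_zero_iff hm] at h0
      have h1 : ∀ᵐ x ∂(volume.restrict (Icc a b)), False := by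
        filter_upwards [h0] with x hx
        rw [hFn] at hx
        simp only [Pi.zero_apply] at hx
        rw [ENNReal.ofReal_rpow_of_pos (hgε x)] at hx
        rw [ENNReal.ofReal_eq_zero] at hx
        exact absurd (Real.rpow_pos_of_pos (hgε x) e) (not_lt.2 hx)
      rw [ae_iff] at h1
      simp only [not_false_eq_true] at h1
      have h2 : (volume.restrict (Icc a b)) univ = 0 := by simpa using h1
      rw [Measure.restrict_apply_univ, Real.volume_Icc, ENNReal.ofReal_eq_zero] at h2
      linarith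
    have hup : ∫⁻ x, ENNReal.ofReal (|f x| ^ p * U x) ≤ S n := by
      rw [← hmass]
      unfold nuP
      rw [withDensity_apply _ MeasurableSet.univ, Measure.restrict_univ]
      refine lintegral_mono_ae ?_
      filter_upwards [hgU] with x hx
      apply ENNReal.ofReal_le_ofReal
      rw [hx, abs_of_nonneg (hf0 x)]
      by_cases hxI : x ∈ Icc a b
      · rw [hf, indicator_of_mem hxI]
        have hpe : e * p + 1 = e := by
          rw [he]
          have : p - 1 ≠ 0 := by linarith
          field_simp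
          ring
        calc ((g x + ε) ^ e) ^ p * g x ≤ ((g x + ε) ^ e) ^ p * (g x + ε) := by
              have : 0 ≤ ((g x + ε) ^ e) ^ p := by
                have := Real.rpow_pos_of_pos (hgε x) e
                positivity
              gcongr
              linarith
          _ = (g x + ε) ^ (e * p + 1) := by
              rw [← Real.rpow_mul (hgε x).le, Real.rpow_add_one (hgε x).ne']
          _ = (g x + ε) ^ e := by rw [hpe]
      · rw [hf, indicator_of_notMem hxI, Real.zero_rpow hp0.ne', zero_mul]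
    have ht := test (by linarith) hp0 hC hfm hf0 hfM hab
      (fun x hx => by rw [hf, indicator_of_notMem hx])
    set m := (nuP f).real univ with hm
    have hmS : S n = ENNReal.ofReal m := by
      rw [hm, Measure.real, hmass, ENNReal.ofReal_toReal hSfin]
    have hm0 : 0 < m := by
      rw [hm, Measure.real, hmass]
      exact ENNReal.toReal_pos hS0 hSfin
    have hlow : ENNReal.ofReal ((2 / 3 : ℝ) ^ r) * UI ≤
        ∫⁻ x, ENNReal.ofReal ((tail a b x) ^ r * U x) := by
      rw [hUI, ← lintegral_const_mul' _ _ ENNReal.ofReal_ne_top]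
      refine le_trans ?_ (setLIntegral_le_lintegral (Icc a b) _)
      refine setLIntegral_mono' measurableSet_Icc fun x hx => ?_
      rw [← ENNReal.ofReal_mul (by positivity)]
      apply ENNReal.ofReal_le_ofReal
      have hUx := hU.1 x
      gcongr
      unfold tail
      rw [div_le_div_iff₀ (by norm_num) (by positivity)]
      have : |x - (a + b) / 2| ≤ (b - a) / 2 := by
        rw [abs_le]; constructor <;> linarith [hx.1, hx.2]
      linarith
    have h3 : ENNReal.ofReal (c1 lam ^ (p / 2) * (m / (b - a)) ^ p) *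
        (ENNReal.ofReal ((2 / 3 : ℝ) ^ r) * UI) ≤ C * ENNReal.ofReal m := by
      rw [← hmS]
      exact (mul_le_mul' le_rfl hlow).trans (ht.trans (mul_le_mul' le_rfl hup))
    -- pass to real numbers
    obtain ⟨v, hv0, hv⟩ : ∃ v : ℝ, 0 ≤ v ∧ UI = ENNReal.ofReal v :=
      ⟨UI.toReal, ENNReal.toReal_nonneg, (ENNReal.ofReal_toReal hUIfin).symm⟩
    have hL1 : (0 : ℝ) < b - a := hL
    rw [hv, ← ENNReal.ofReal_mul (by positivity), ← ENNReal.ofReal_mul (by positivity),
      ← ENNReal.ofReal_coe_nnreal, ← ENNReal.ofReal_mul (by positivity),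
      ENNReal.ofReal_le_ofReal_iff (by positivity)] at h3
    rw [hv, hmS, ← ENNReal.ofReal_div_of_pos hL, ← ENNReal.ofReal_div_of_pos hL,
      ENNReal.ofReal_rpow_of_nonneg (by positivity) (by linarith),
      ← ENNReal.ofReal_mul (by positivity)]
    apply ENNReal.ofReal_le_ofReal
    rw [le_div_iff₀ hκ0]
    have e1 : (m / (b - a)) ^ p = (m / (b - a)) ^ (p - 1) * (m / (b - a)) := by
      rw [← Real.rpow_add_one (by positivity)]
      congr 1
      ring
    rw [e1] at h3
    have h4 : (v / (b - a) * (m / (b - a)) ^ (p - 1) * κ) * m ≤ C * m := by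
      calc (v / (b - a) * (m / (b - a)) ^ (p - 1) * κ) * m
          = c1 lam ^ (p / 2) * ((m / (b - a)) ^ (p - 1) * (m / (b - a))) *
              ((2 / 3 : ℝ) ^ r * v) := by
            rw [hκ]; ring
        _ ≤ C * m := h3
    exact le_of_mul_le_mul_right h4 hm0
  -- the limit
  have hlim : Tendsto S atTop (𝓝 (∫⁻ x in Icc a b, (ENNReal.ofReal (g x)) ^ e)) := by
    have hanti : ∀ x, Antitone fun n : ℕ => ENNReal.ofReal (g x + 1 / ((n : ℝ) + 1)) := by
      intro x n m hnm
      apply ENNReal.ofReal_le_ofReal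
      have : (n : ℝ) ≤ m := by exact_mod_cast hnm
      gcongr
    have hmono : ∀ x, Monotone fun n : ℕ => Fn n x := by
      intro x n m hnm
      simp only [hFn]
      have hinv : ∀ t : ℝ≥0∞, t ^ e = (t ^ (-e))⁻¹ := by
        intro t
        rw [← ENNReal.rpow_neg, neg_neg]
      rw [hinv, hinv]
      exact ENNReal.inv_le_inv.2 (ENNReal.rpow_le_rpow (hanti x hnm) (by linarith))
    refine lintegral_tendsto_of_tendsto_of_monotone (fun n => ?_)
      (Eventually.of_forall hmono) (Eventually.of_forall fun x => ?_)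
    · rw [hFn]
      have : Measurable fun x => (ENNReal.ofReal (g x + 1 / ((n : ℝ) + 1))) ^ e := by fun_prop
      exact this.aemeasurable
    · have h1 : Tendsto (fun n : ℕ => g x + 1 / ((n : ℝ) + 1)) atTop (𝓝 (g x + 0)) :=
        tendsto_const_nhds.add tendsto_one_div_add_atTop_nhds_zero_nat
      rw [add_zero] at h1
      have h2 := (ENNReal.continuous_rpow_const (y := e)).tendsto (ENNReal.ofReal (g x))
      exact h2.comp ((ENNReal.continuous_ofReal.tendsto _).comp h1)
  have hSU : ∫⁻ x in Icc a b, (ENNReal.ofReal (U x)) ^ e =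
      ∫⁻ x in Icc a b, (ENNReal.ofReal (g x)) ^ e := by
    refine lintegral_congr_ae (ae_restrict_of_ae ?_)
    filter_upwards [hgU] with x hx
    rw [hx]
  rw [hSU]
  have hLt : ENNReal.ofReal (b - a) ≠ ∞ := ENNReal.ofReal_ne_top
  have hL0 : ENNReal.ofReal (b - a) ≠ 0 := by simpa using hL
  rcases eq_or_ne UI 0 with hz | hnz
  · rw [hz, ENNReal.zero_div, zero_mul]
    exact zero_le
  · have hA0 : UI / ENNReal.ofReal (b - a) ≠ 0 := ENNReal.div_ne_zero.2 ⟨hnz, hLt⟩
    have hA1 : UI / ENNReal.ofReal (b - a) ≠ ∞ := ENNReal.div_ne_top hUIfin hL0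
    set K : ℝ≥0∞ := (UI / ENNReal.ofReal (b - a))⁻¹ * ENNReal.ofReal (C / κ) with hK
    have h5 : ∀ n, S n ≤ K ^ (1 / (p - 1)) * ENNReal.ofReal (b - a) := by
      intro n
      have h6 : (S n / ENNReal.ofReal (b - a)) ^ (p - 1) ≤ K :=
        (ENNReal.mul_le_iff_le_inv hA0 hA1).1 (key n)
      have h7 : S n / ENNReal.ofReal (b - a) ≤ K ^ (1 / (p - 1)) := by
        rw [one_div, ENNReal.le_rpow_inv_iff (by linarith)]
        exact h6
      rwa [ENNReal.div_le_iff hL0 hLt] at h7
    have h8 := le_of_tendsto' hlim h5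
    rw [← ENNReal.div_le_iff hL0 hLt, one_div, ENNReal.le_rpow_inv_iff (by linarith)] at h8
    exact (ENNReal.mul_le_iff_le_inv hA0 hA1).2 h8

/-- **Necessity.** If the weighted inequality holds for bounded Borel functions with bounded
support, then `U ∈ A_p` and `U ∈ B_{λp/2}`. -/
theorem necessity (hlam : 1 < lam) (hp : 1 < p) (hU : IsWeight U)
    (h : ∃ C : ℝ≥0, ∀ f : ℝ → ℝ, Measurable f → (∃ M : ℝ, ∀ x, |f x| ≤ M) →
      (∃ a b : ℝ, ∀ x, x ∉ Icc a b → f x = 0) →
      ∫⁻ x, gStar lam f x ^ p * ENNReal.ofReal (U x) ≤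
        C * ∫⁻ x, ENNReal.ofReal (|f x| ^ p * U x)) :
    MemA p U ∧ MemB (lam * p / 2) U := by
  obtain ⟨C, hC⟩ := h
  exact ⟨memA_of_star hlam hp hU hC, memB_of_star hlam (by linarith) hU hC⟩

end nec

end Pool.Agent.H24.MP842
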