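import Pool.Agent.H24.MP842.Defs
import Pool.Agent.H24.MP842.Bellman

/-!
# The weighted square function estimate in `L²(w)`, `w ∈ A_2` (Poisson form)
-/

set_option autoImplicit false

namespace Pool.Agent.H24.MP842

open MeasureTheory Set Filter
open scoped ENNReal NNReal Topology

/-- Poisson average of a nonnegative function, as a lower Lebesgue integral. -/
noncomputable def PL (g : ℝ → ℝ≥0∞) (z y : ℝ) : ℝ≥0∞ :=
  ∫⁻ x, ENNReal.ofReal (k0 (z - x) y) * g x

lemma meas_ker (z y : ℝ) : Measurable (fun x => ENNReal.ofReal (k0 (z - x) y)) :=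
  (measurable_k0.comp (by fun_prop : Measurable fun x : ℝ => ((z - x, y) : ℝ × ℝ))).ennreal_ofReal

lemma lintegral_k0_left (z : ℝ) {y : ℝ} (hy : 0 < y) : ∫⁻ x, ENNReal.ofReal (k0 (z - x) y) = 1 := by
  rw [← lintegral_k0 z hy]
  refine lintegral_congr fun x => ?_
  have : k0 (z - x) y = k0 (x - z) y := by
    unfold k0
    have : (z - x) ^ 2 = (x - z) ^ 2 := by ring
    rw [this]
  rw [this]

lemma PL_one (z : ℝ) {y : ℝ} (hy : 0 < y) : PL (fun _ => 1) z y = 1 := by
  unfold PL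
  simp only [mul_one]
  exact lintegral_k0_left z hy

lemma lintegral_wd {g : ℝ → ℝ≥0∞} (hg : Measurable g) (z y : ℝ) :
    ∫⁻ x, ENNReal.ofReal (k0 (z - x) y) ∂(volume.withDensity g) = PL g z y := by
  rw [lintegral_withDensity_eq_lintegral_mul _ hg (meas_ker z y)]
  unfold PL
  refine lintegral_congr fun x => ?_
  rw [Pi.mul_apply, mul_comm]

lemma good_wd {g : ℝ → ℝ≥0∞} (hg : Measurable g) (h : ∀ z y, 0 < y → PL g z y ≠ ∞) :
    Good (volume.withDensity g) := by
  intro z y hy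
  refine ⟨(measurable_k0.comp
    (by fun_prop : Measurable fun x : ℝ => ((z - x, y) : ℝ × ℝ))).aestronglyMeasurable, ?_⟩
  rw [hasFiniteIntegral_iff_ofReal (Eventually.of_forall fun x => k0_nonneg (z - x) hy),
    lintegral_wd hg]
  exact (h z y hy).lt_top

lemma ofReal_pu_wd {g : ℝ → ℝ≥0∞} (hg : Measurable g) (h : ∀ z y, 0 < y → PL g z y ≠ ∞)
    (z : ℝ) {y : ℝ} (hy : 0 < y) :
    ENNReal.ofReal (pu (volume.withDensity g) z y) = PL g z y := by
  rw [ofReal_pu (good_wd hg h) z hy, lintegral_wd hg]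

/-- Cauchy-Schwarz with a weight. -/
lemma cs_weight {α : Type*} [MeasurableSpace α] {μ : Measure α} {a w : α → ℝ≥0∞}
    (ha : Measurable a) (hw : Measurable w) (h0 : ∀ᵐ x ∂μ, w x ≠ 0) (ht : ∀ᵐ x ∂μ, w x ≠ ∞) :
    (∫⁻ x, a x ∂μ) ^ 2 ≤ (∫⁻ x, (w x)⁻¹ ∂μ) * ∫⁻ x, a x ^ 2 * w x ∂μ := by
  have h := ENNReal.lintegral_mul_le_Lp_mul_Lq μ (Real.HolderConjugate.two_two)
    (f := fun x => ((w x)⁻¹) ^ (1 / 2 : ℝ)) (g := fun x => a x * (w x) ^ (1 / 2 : ℝ))
    (by fun_prop) (by fun_prop)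
  have e1 : ∫⁻ x, a x ∂μ = ∫⁻ x, ((fun x => ((w x)⁻¹) ^ (1 / 2 : ℝ)) *
      (fun x => a x * (w x) ^ (1 / 2 : ℝ))) x ∂μ := by
    refine lintegral_congr_ae ?_
    filter_upwards [h0, ht] with x hx0 hxt
    simp only [Pi.mul_apply]
    rw [ENNReal.inv_rpow]
    have h1 : (w x) ^ (1 / 2 : ℝ) ≠ 0 := by
      simp [ENNReal.rpow_eq_zero_iff, hx0, hxt]
    have h2 : (w x) ^ (1 / 2 : ℝ) ≠ ∞ := by
      simp [ENNReal.rpow_eq_top_iff, hx0, hxt]
    rw [mul_comm (a x), ← mul_assoc, ENNReal.inv_mul_cancel h1 h2, one_mul]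
  have e2 : ∀ x, (((w x)⁻¹) ^ (1 / 2 : ℝ)) ^ (2 : ℝ) = (w x)⁻¹ := by
    intro x
    rw [← ENNReal.rpow_mul]; norm_num
  have e3 : ∀ x, (a x * (w x) ^ (1 / 2 : ℝ)) ^ (2 : ℝ) = a x ^ 2 * w x := by
    intro x
    rw [ENNReal.mul_rpow_of_nonneg _ _ (by norm_num), ← ENNReal.rpow_mul]
    norm_num
  rw [← e1] at h
  simp_rw [e2, e3] at h
  calc (∫⁻ x, a x ∂μ) ^ 2 ≤ ((∫⁻ x, (w x)⁻¹ ∂μ) ^ (1 / 2 : ℝ) *
        (∫⁻ x, a x ^ 2 * w x ∂μ) ^ (1 / 2 : ℝ)) ^ 2 := by gcongr
    _ = (∫⁻ x, (w x)⁻¹ ∂μ) * ∫⁻ x, a x ^ 2 * w x ∂μ := by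
        rw [mul_pow, ← ENNReal.rpow_natCast, ← ENNReal.rpow_natCast, ← ENNReal.rpow_mul,
          ← ENNReal.rpow_mul]
        norm_num

/-- Cauchy-Schwarz for Poisson averages. -/
lemma PL_cs {a w : ℝ → ℝ≥0∞} (ha : Measurable a) (hw : Measurable w) (h0 : ∀ᵐ x, w x ≠ 0)
    (ht : ∀ᵐ x, w x ≠ ∞) (z y : ℝ) :
    (PL a z y) ^ 2 ≤ PL (fun x => (w x)⁻¹) z y * PL (fun x => a x ^ 2 * w x) z y := by
  set κ : ℝ → ℝ≥0∞ := fun x => ENNReal.ofReal (k0 (z - x) y) with hκ
  have hκm : Measurable κ := meas_ker z y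
  have h := cs_weight (μ := volume.withDensity κ) ha hw
    ((withDensity_absolutelyContinuous volume κ).ae_le h0)
    ((withDensity_absolutelyContinuous volume κ).ae_le ht)
  rw [lintegral_withDensity_eq_lintegral_mul _ hκm ha,
    lintegral_withDensity_eq_lintegral_mul _ hκm (by fun_prop : Measurable fun x => (w x)⁻¹),
    lintegral_withDensity_eq_lintegral_mul _ hκm
      (by fun_prop : Measurable fun x => a x ^ 2 * w x)] at h
  simpa only [PL, Pi.mul_apply] using h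

section pm

variable {f : ℝ → ℝ}

/-- positive part measure -/
noncomputable def nuP (f : ℝ → ℝ) : Measure ℝ := volume.withDensity fun x => ENNReal.ofReal (f x)

lemma poisson_eq (hf : Measurable f) (hg : Good (nuP f)) (hg' : Good (nuP (fun x => -f x)))
    (z : ℝ) {y : ℝ} (hy : 0 < y) :
    poisson f z y = pu (nuP f) z y - pu (nuP (fun x => -f x)) z y := by
  have hfn : Measurable (fun x => -f x) := hf.neg
  have h1 : pu (nuP f) z y = ∫ x, max (f x) 0 * k0 (z - x) y := by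
    unfold pu nuP
    rw [integral_withDensity_eq_integral_toReal_smul hf.ennreal_ofReal
      (Eventually.of_forall fun x => ENNReal.ofReal_lt_top)]
    refine integral_congr_ae (Eventually.of_forall fun x => ?_)
    simp only [smul_eq_mul, ENNReal.toReal_ofReal']
  have h2 : pu (nuP (fun x => -f x)) z y = ∫ x, max (-f x) 0 * k0 (z - x) y := by
    unfold pu nuP
    rw [integral_withDensity_eq_integral_toReal_smul hfn.ennreal_ofReal
      (Eventually.of_forall fun x => ENNReal.ofReal_lt_top)]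
    refine integral_congr_ae (Eventually.of_forall fun x => ?_)
    simp only [smul_eq_mul, ENNReal.toReal_ofReal']
  have i1 : Integrable (fun x => max (f x) 0 * k0 (z - x) y) := by
    have := hg z y hy
    unfold nuP at this
    rw [integrable_withDensity_iff_integrable_smul' hf.ennreal_ofReal
      (Eventually.of_forall fun x => ENNReal.ofReal_lt_top)] at this
    simpa only [smul_eq_mul, ENNReal.toReal_ofReal'] using this
  have i2 : Integrable (fun x => max (-f x) 0 * k0 (z - x) y) := by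
    have := hg' z y hy
    unfold nuP at this
    rw [integrable_withDensity_iff_integrable_smul' hfn.ennreal_ofReal
      (Eventually.of_forall fun x => ENNReal.ofReal_lt_top)] at this
    simpa only [smul_eq_mul, ENNReal.toReal_ofReal'] using this
  rw [h1, h2, ← integral_sub i1 i2]
  unfold poisson
  rw [← integral_const_mul, ← integral_sub_left_eq_self
    (fun x => max (f x) 0 * k0 (z - x) y - max (-f x) 0 * k0 (z - x) y) volume z]
  refine integral_congr_ae (Eventually.of_forall fun x => ?_)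
  simp only
  have e : max (f (z - x)) 0 - max (-f (z - x)) 0 = f (z - x) := by
    rcases le_total (f (z - x)) 0 with h | h
    · rw [max_eq_right h, max_eq_left (by linarith)]; ring
    · rw [max_eq_left h, max_eq_right (by linarith)]; ring
  have e2 : z - (z - x) = x := by ring
  rw [e2, ← sub_mul, e]
  unfold k0
  have : 0 < x ^ 2 + y ^ 2 := by positivity
  field_simp

lemma gradSq_eq (hf : Measurable f) (hg : Good (nuP f)) (hg' : Good (nuP (fun x => -f x)))
    (z : ℝ) {y : ℝ} (hy : 0 < y) :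
    gradSq f z y = (puz (nuP f) z y - puz (nuP (fun x => -f x)) z y) ^ 2 +
      (puy (nuP f) z y - puy (nuP (fun x => -f x)) z y) ^ 2 := by
  have h1 : HasDerivAt (fun z' => poisson f z' y)
      (puz (nuP f) z y - puz (nuP (fun x => -f x)) z y) z := by
    have := (hasDerivAt_pu_z hg z hy).sub (hasDerivAt_pu_z hg' z hy)
    refine this.congr_of_eventuallyEq (Eventually.of_forall fun z' => ?_)
    exact poisson_eq hf hg hg' z' hy
  have h2 : HasDerivAt (fun y' => poisson f z y')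
      (puy (nuP f) z y - puy (nuP (fun x => -f x)) z y) y := by
    have := (hasDerivAt_pu_y hg z hy).sub (hasDerivAt_pu_y hg' z hy)
    refine this.congr_of_eventuallyEq ?_
    filter_upwards [Ioi_mem_nhds hy] with y' hy'
    exact poisson_eq hf hg hg' z hy'
  unfold gradSq
  rw [h1.deriv, h2.deriv]

/-- A jointly measurable version of `gradSq`. -/
lemma gradSq_meas (hf : Measurable f) (hg : Good (nuP f)) (hg' : Good (nuP (fun x => -f x))) :
    ∃ g : ℝ × ℝ → ℝ, Measurable g ∧ (∀ r, 0 ≤ g r) ∧ ∀ z y, 0 < y → gradSq f z y = g (z, y) := by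
  have s1 : SFinite (nuP f) := by unfold nuP; infer_instance
  have s2 : SFinite (nuP (fun x => -f x)) := by unfold nuP; infer_instance
  have f1 := measurable_puz (ν := nuP f)
  have f2 := measurable_puy (ν := nuP f)
  have g1 := measurable_puz (ν := nuP (fun x => -f x))
  have g2 := measurable_puy (ν := nuP (fun x => -f x))
  refine ⟨fun r => (puz (nuP f) r.1 r.2 - puz (nuP (fun x => -f x)) r.1 r.2) ^ 2 +
      (puy (nuP f) r.1 r.2 - puy (nuP (fun x => -f x)) r.1 r.2) ^ 2, by fun_prop, ?_, ?_⟩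
  · intro r; positivity
  · intro z y hy
    exact gradSq_eq hf hg hg' z hy

end pm

section final

variable {w : ℝ → ℝ≥0∞}

/-- The weight data for a Poisson-`A_2` weight. -/
structure PA2 (w : ℝ → ℝ≥0∞) (A : ℝ) : Prop where
  meas : Measurable w
  ne0 : ∀ᵐ x, w x ≠ 0
  neT : ∀ᵐ x, w x ≠ ∞
  prod : ∀ z y, 0 < y → PL w z y * PL (fun x => (w x)⁻¹) z y ≤ ENNReal.ofReal A

lemma PL_ne_zero {g : ℝ → ℝ≥0∞} (hg : Measurable g) (h : ∀ᵐ x, g x ≠ 0) (z : ℝ) {y : ℝ}
    (hy : 0 < y) : PL g z y ≠ 0 := by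
  unfold PL
  intro h0
  have hm : Measurable fun x => ENNReal.ofReal (k0 (z - x) y) * g x := (meas_ker z y).mul hg
  rw [lintegral_eq_zero_iff hm] at h0
  have h1 : ∀ᵐ x : ℝ, False := by
    filter_upwards [h, h0] with x hx hx0
    rcases mul_eq_zero.1 hx0 with h2 | h2
    · rw [ENNReal.ofReal_eq_zero] at h2
      exact absurd (k0_pos (z - x) hy) (not_lt.2 h2)
    · exact hx h2
  have h2 := h1.exists
  obtain ⟨_, hx⟩ := h2
  exact hx

namespace PA2

variable {A : ℝ} (h : PA2 w A)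
include h

lemma inv_ne0 : ∀ᵐ x, (w x)⁻¹ ≠ 0 := by
  filter_upwards [h.neT] with x hx
  exact ENNReal.inv_ne_zero.2 hx

lemma PLw_ne_top (z : ℝ) {y : ℝ} (hy : 0 < y) : PL w z y ≠ ∞ := by
  intro ht
  have h1 := h.prod z y hy
  have hmi : Measurable fun x => (w x)⁻¹ := h.meas.inv
  rw [ht, ENNReal.top_mul (PL_ne_zero hmi h.inv_ne0 z hy)] at h1
  exact absurd h1 (by simp)

lemma PLv_ne_top (z : ℝ) {y : ℝ} (hy : 0 < y) : PL (fun x => (w x)⁻¹) z y ≠ ∞ := by
  intro ht
  have h1 := h.prod z y hy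
  rw [ht, ENNReal.mul_top (PL_ne_zero h.meas h.ne0 z hy)] at h1
  exact absurd h1 (by simp)

lemma one_le (z : ℝ) {y : ℝ} (hy : 0 < y) : 1 ≤ PL w z y * PL (fun x => (w x)⁻¹) z y := by
  have h1 := PL_cs (a := fun _ => 1) measurable_const h.meas h.ne0 h.neT z y
  rw [PL_one z hy] at h1
  simp only [one_pow, one_mul] at h1
  rw [mul_comm]
  exact h1

/-- If `∫ a² w < ∞` then all Poisson averages of `a` are finite. -/
lemma PL_ne_top_of_sq {a : ℝ → ℝ≥0∞} (ha : Measurable a) (hB : ∫⁻ x, a x ^ 2 * w x ≠ ∞) (z : ℝ)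
    {y : ℝ} (hy : 0 < y) : PL a z y ≠ ∞ ∧ PL (fun x => a x ^ 2 * w x) z y ≠ ∞ := by
  have h2 : PL (fun x => a x ^ 2 * w x) z y ≠ ∞ := by
    have : PL (fun x => a x ^ 2 * w x) z y ≤
        ∫⁻ x, ENNReal.ofReal (1 / (Real.pi * y)) * (a x ^ 2 * w x) := by
      unfold PL
      refine lintegral_mono fun x => ?_
      gcongr
      unfold k0
      rw [div_le_div_iff₀ (by positivity) (by positivity)]
      have : 0 < Real.pi := Real.pi_pos
      nlinarith [sq_nonneg (z - x), mul_nonneg this.le (sq_nonneg (z - x))]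
    refine ne_top_of_le_ne_top ?_ this
    rw [lintegral_const_mul' _ _ ENNReal.ofReal_ne_top]
    exact ENNReal.mul_ne_top ENNReal.ofReal_ne_top hB
  refine ⟨?_, h2⟩
  intro ht
  have h1 := PL_cs ha h.meas h.ne0 h.neT z y
  rw [ht] at h1
  have h3 := ENNReal.mul_ne_top (h.PLv_ne_top z hy) h2
  simp at h1
  exact h3 h1

lemma setup {g : ℝ → ℝ} (hg : Measurable g)
    (hB : ∫⁻ x, ENNReal.ofReal (g x) ^ 2 * w x ≠ ∞) :
    Setup (nuP g) (volume.withDensity fun x => (w x)⁻¹) (volume.withDensity w)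
      (volume.withDensity fun x => ENNReal.ofReal (g x) ^ 2 * w x) A := by
  have mw := h.meas
  have ma : Measurable fun x => ENNReal.ofReal (g x) := hg.ennreal_ofReal
  have mv : Measurable fun x => (w x)⁻¹ := mw.inv
  have mX : Measurable fun x => ENNReal.ofReal (g x) ^ 2 * w x := by fun_prop
  have gF : Good (nuP g) := good_wd ma fun z y hy => (h.PL_ne_top_of_sq ma hB z hy).1
  have tV : ∀ z y, 0 < y → PL (fun x => (w x)⁻¹) z y ≠ ∞ := fun z y hy => h.PLv_ne_top z hy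
  have tW : ∀ z y, 0 < y → PL w z y ≠ ∞ := fun z y hy => h.PLw_ne_top z hy
  have tX : ∀ z y, 0 < y → PL (fun x => ENNReal.ofReal (g x) ^ 2 * w x) z y ≠ ∞ :=
    fun z y hy => (h.PL_ne_top_of_sq ma hB z hy).2
  have tF : ∀ z y, 0 < y → PL (fun x => ENNReal.ofReal (g x)) z y ≠ ∞ :=
    fun z y hy => (h.PL_ne_top_of_sq ma hB z hy).1
  refine ⟨gF, good_wd mv tV, good_wd mw tW, good_wd mX tX, ?_, ?_, ?_, ?_, ?_, ?_, ?_, ?_, ?_⟩
  · unfold nuP; infer_instance
  · infer_instance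
  · infer_instance
  · exact isFiniteMeasure_withDensity hB
  · intro h0
    have h1 := lintegral_wd mv 0 1
    rw [h0, lintegral_zero_measure] at h1
    exact PL_ne_zero mv h.inv_ne0 0 one_pos h1.symm
  · intro h0
    have h1 := lintegral_wd mw 0 1
    rw [h0, lintegral_zero_measure] at h1
    exact PL_ne_zero mw h.ne0 0 one_pos h1.symm
  · intro z y hy
    have h1 := h.one_le z hy
    rw [← ofReal_pu_wd mw tW z hy, ← ofReal_pu_wd mv tV z hy,
      ← ENNReal.ofReal_mul (pu_nonneg _ z hy), ← ENNReal.ofReal_one,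
      ENNReal.ofReal_le_ofReal_iff' ] at h1
    rcases h1 with h1 | h1
    · rw [mul_comm]; exact h1
    · linarith
  · intro z y hy
    have h1 := h.prod z y hy
    rw [← ofReal_pu_wd mw tW z hy, ← ofReal_pu_wd mv tV z hy,
      ← ENNReal.ofReal_mul (pu_nonneg _ z hy), ENNReal.ofReal_le_ofReal_iff'] at h1
    rcases h1 with h1 | h1
    · rw [mul_comm]; exact h1
    · exfalso
      have h2 := h.one_le z hy
      rw [← ofReal_pu_wd mw tW z hy, ← ofReal_pu_wd mv tV z hy,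
        ← ENNReal.ofReal_mul (pu_nonneg _ z hy), ENNReal.ofReal_eq_zero.2 h1] at h2
      simp at h2
  · intro z y hy
    have h1 := PL_cs ma mw h.ne0 h.neT z y
    rw [← ofReal_pu_wd ma tF z hy, ← ofReal_pu_wd mv tV z hy, ← ofReal_pu_wd mX tX z hy,
      ← ENNReal.ofReal_mul (pu_nonneg _ z hy), ← ENNReal.ofReal_pow (pu_nonneg _ z hy),
      ENNReal.ofReal_le_ofReal_iff'] at h1
    rcases h1 with h1 | h1
    · exact h1
    · exact h1.trans (mul_nonneg (pu_nonneg _ z hy) (pu_nonneg _ z hy))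

lemma one_side {g : ℝ → ℝ} (hg : Measurable g)
    (hB : ∫⁻ x, ENNReal.ofReal (g x) ^ 2 * w x ≠ ∞) :
    ∫⁻ y in Ioi (0 : ℝ), ∫⁻ z, ENNReal.ofReal
      (y * (puz (nuP g) z y ^ 2 + puy (nuP g) z y ^ 2)) * PL w z y ≤
      ENNReal.ofReal (78 * A ^ 3) * ∫⁻ x, ENNReal.ofReal (g x) ^ 2 * w x := by
  have hs := (h.setup hg hB).square_bound
  rw [withDensity_apply _ MeasurableSet.univ, Measure.restrict_univ] at hs
  refine le_trans (le_of_eq ?_) hs
  refine setLIntegral_congr_fun measurableSet_Ioi fun y hy => ?_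
  have hy0 : 0 < y := hy
  refine lintegral_congr fun z => ?_
  rw [← ofReal_pu_wd h.meas (fun z y hy => h.PLw_ne_top z hy) z hy0,
    ← ENNReal.ofReal_mul (by positivity)]

lemma finite_parts {f : ℝ → ℝ} (hB : ∫⁻ x, ENNReal.ofReal (f x ^ 2) * w x ≠ ∞) :
    (∫⁻ x, ENNReal.ofReal (f x) ^ 2 * w x ≠ ∞) ∧
      ∫⁻ x, ENNReal.ofReal (-f x) ^ 2 * w x ≠ ∞ := by
  constructor
  · refine ne_top_of_le_ne_top hB (lintegral_mono fun x => ?_)
    gcongr
    rcases le_total (f x) 0 with h1 | h1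
    · rw [ENNReal.ofReal_eq_zero.2 h1]; simp
    · rw [← ENNReal.ofReal_pow h1]
  · refine ne_top_of_le_ne_top hB (lintegral_mono fun x => ?_)
    gcongr
    rcases le_total (f x) 0 with h1 | h1
    · rw [← ENNReal.ofReal_pow (by linarith : 0 ≤ -f x)]
      apply ENNReal.ofReal_le_ofReal
      exact le_of_eq (by ring)
    · rw [ENNReal.ofReal_eq_zero.2 (by linarith : -f x ≤ 0)]; simp

lemma good_parts {f : ℝ → ℝ} (hf : Measurable f)
    (hB : ∫⁻ x, ENNReal.ofReal (f x ^ 2) * w x ≠ ∞) :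
    Good (nuP f) ∧ Good (nuP fun x => -f x) :=
  ⟨(h.setup hf (h.finite_parts hB).1).gF, (h.setup hf.neg (h.finite_parts hB).2).gF⟩

/-- **The weighted `L²` square function estimate.** -/
theorem square_estimate {f : ℝ → ℝ} (hf : Measurable f)
    (hB : ∫⁻ x, ENNReal.ofReal (f x ^ 2) * w x ≠ ∞) :
    ∫⁻ z, ∫⁻ y in Ioi (0 : ℝ), ENNReal.ofReal (y * gradSq f z y) * PL w z y ≤
      ENNReal.ofReal (156 * A ^ 3) * ∫⁻ x, ENNReal.ofReal (f x ^ 2) * w x := by
  obtain ⟨hB1, hB2⟩ := h.finite_parts hB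
  obtain ⟨g1, g2⟩ := h.good_parts hf hB
  have hfn : Measurable (fun x => -f x) := hf.neg
  have k1 := h.one_side hf hB1
  have k2 := h.one_side hfn hB2
  have s1 : SFinite (nuP f) := by unfold nuP; infer_instance
  have s2 : SFinite (nuP (fun x => -f x)) := by unfold nuP; infer_instance
  have m1 := measurable_puz (ν := nuP f)
  have m2 := measurable_puy (ν := nuP f)
  have m3 := measurable_puz (ν := nuP (fun x => -f x))
  have m4 := measurable_puy (ν := nuP (fun x => -f x))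
  have mW : Measurable fun r : ℝ × ℝ => PL w r.1 r.2 := by
    unfold PL
    have : Measurable fun r : (ℝ × ℝ) × ℝ => ENNReal.ofReal (k0 (r.1.1 - r.2) r.1.2) * w r.2 := by
      refine Measurable.mul ?_ (h.meas.comp measurable_snd)
      exact (measurable_k0.comp (by fun_prop :
        Measurable fun r : (ℝ × ℝ) × ℝ => ((r.1.1 - r.2, r.1.2) : ℝ × ℝ))).ennreal_ofReal
    exact this.lintegral_prod_right'
  set T1 : ℝ → ℝ → ℝ≥0∞ := fun z y => ENNReal.ofReal
      (y * (puz (nuP f) z y ^ 2 + puy (nuP f) z y ^ 2)) * PL w z y with hT1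
  set T2 : ℝ → ℝ → ℝ≥0∞ := fun z y => ENNReal.ofReal
      (y * (puz (nuP fun x => -f x) z y ^ 2 + puy (nuP fun x => -f x) z y ^ 2)) * PL w z y with hT2
  have mT1 : Measurable fun r : ℝ × ℝ => T1 r.1 r.2 := by
    simp only [hT1]; fun_prop
  have mT2 : Measurable fun r : ℝ × ℝ => T2 r.1 r.2 := by
    simp only [hT2]; fun_prop
  have hpt : ∀ z y, 0 < y → ENNReal.ofReal (y * gradSq f z y) * PL w z y ≤
      2 * (T1 z y + T2 z y) := by
    intro z y hy
    rw [gradSq_eq hf g1 g2 z hy]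
    simp only [hT1, hT2]
    rw [← add_mul, ← mul_assoc, ← ENNReal.ofReal_add (by positivity) (by positivity)]
    gcongr
    have : (2 : ℝ≥0∞) = ENNReal.ofReal 2 := by simp
    rw [this, ← ENNReal.ofReal_mul (by norm_num)]
    apply ENNReal.ofReal_le_ofReal
    set a := puz (nuP f) z y
    set b := puz (nuP fun x => -f x) z y
    set c := puy (nuP f) z y
    set d := puy (nuP fun x => -f x) z y
    have e1 : (a - b) ^ 2 ≤ 2 * (a ^ 2 + b ^ 2) := by nlinarith [sq_nonneg (a + b)]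
    have e2 : (c - d) ^ 2 ≤ 2 * (c ^ 2 + d ^ 2) := by nlinarith [sq_nonneg (c + d)]
    calc y * ((a - b) ^ 2 + (c - d) ^ 2)
        ≤ y * (2 * (a ^ 2 + b ^ 2) + 2 * (c ^ 2 + d ^ 2)) := by gcongr
      _ = 2 * (y * (a ^ 2 + c ^ 2) + y * (b ^ 2 + d ^ 2)) := by ring
  have hsum : (∫⁻ x, ENNReal.ofReal (f x) ^ 2 * w x) + (∫⁻ x, ENNReal.ofReal (-f x) ^ 2 * w x) =
      ∫⁻ x, ENNReal.ofReal (f x ^ 2) * w x := by
    have mw := h.meas
    have hm : Measurable fun x => ENNReal.ofReal (f x) ^ 2 * w x := by fun_prop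
    rw [← lintegral_add_left hm]
    refine lintegral_congr fun x => ?_
    rw [← add_mul]
    congr 1
    rcases le_total (f x) 0 with h1 | h1
    · rw [ENNReal.ofReal_eq_zero.2 h1, ← ENNReal.ofReal_pow (by linarith : 0 ≤ -f x)]
      simp
    · rw [ENNReal.ofReal_eq_zero.2 (by linarith : -f x ≤ 0), ← ENNReal.ofReal_pow h1]
      simp
  calc ∫⁻ z, ∫⁻ y in Ioi (0 : ℝ), ENNReal.ofReal (y * gradSq f z y) * PL w z y
      ≤ ∫⁻ z, ∫⁻ y in Ioi (0 : ℝ), 2 * (T1 z y + T2 z y) := by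
        refine lintegral_mono fun z => ?_
        exact setLIntegral_mono' measurableSet_Ioi fun y hy => hpt z y hy
    _ = ∫⁻ y in Ioi (0 : ℝ), ∫⁻ z, 2 * (T1 z y + T2 z y) := by
        refine lintegral_lintegral_swap (f := fun z y => 2 * (T1 z y + T2 z y)) ?_
        exact ((mT1.add mT2).const_mul 2).aemeasurable
    _ = 2 * ((∫⁻ y in Ioi (0 : ℝ), ∫⁻ z, T1 z y) + ∫⁻ y in Ioi (0 : ℝ), ∫⁻ z, T2 z y) := by
        have n1 : ∀ y, Measurable fun z => T1 z y := fun y =>
          mT1.comp (by fun_prop : Measurable fun z : ℝ => ((z, y) : ℝ × ℝ))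
        have n2 : ∀ y, ∫⁻ z, 2 * (T1 z y + T2 z y) = 2 * ((∫⁻ z, T1 z y) + ∫⁻ z, T2 z y) := by
          intro y
          rw [lintegral_const_mul' _ _ (by norm_num), lintegral_add_left (n1 y)]
        have n3 : Measurable fun y => ∫⁻ z, T1 z y :=
          (mT1.comp measurable_swap).lintegral_prod_right'
        simp_rw [n2]
        rw [lintegral_const_mul' _ _ (by norm_num), lintegral_add_left n3]
    _ ≤ 2 * (ENNReal.ofReal (78 * A ^ 3) * (∫⁻ x, ENNReal.ofReal (f x) ^ 2 * w x) +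
          ENNReal.ofReal (78 * A ^ 3) * ∫⁻ x, ENNReal.ofReal (-f x) ^ 2 * w x) := by
        exact mul_le_mul_right (add_le_add k1 k2) 2
    _ = ENNReal.ofReal (156 * A ^ 3) * ∫⁻ x, ENNReal.ofReal (f x ^ 2) * w x := by
        rw [← mul_add, hsum, ← mul_assoc]
        congr 1
        have : (2 : ℝ≥0∞) = ENNReal.ofReal 2 := by simp
        rw [this, ← ENNReal.ofReal_mul (by norm_num)]
        congr 1
        ring

end PA2

end final

end Pool.Agent.H24.MP842
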